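import Pool.Agent.V11248.Sq.Game

/-!
# Adding subsets of `λ`
-/

namespace Pool.Agent.V11248.Sq

open Cardinal Set

universe u v

/-- Partial functions from `Z` to two values, defined at fewer than `λ` points. -/
structure Add (lam : Cardinal.{u}) (Z : Type u) where
  f : Z → Option Bool
  small : #{z | f z ≠ none} < lam

instance {lam : Cardinal.{u}} {Z : Type u} : Preorder (Add lam Z) where
  le g f := ∀ z b, f.f z = some b → g.f z = some b
  le_refl _ _ _ h := h
  le_trans _ _ _ h1 h2 z b h := h1 z b (h2 z b h)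

section

variable {lam : Cardinal.{u}} {Z : Type u}

theorem Add.exists_lower (hreg : lam.IsRegular) {I : Type u} (hI : #I < lam) (r : I → Add lam Z)
    (hc : ∀ i j z b b', (r i).f z = some b → (r j).f z = some b' → b = b') :
    ∃ q : Add lam Z, (∀ i, q ≤ r i) ∧ ∀ z, q.f z ≠ none → ∃ i, (r i).f z ≠ none := by
  classical
  let g : Z → Option Bool := fun z => if h : ∃ i, (r i).f z ≠ none then
    (r (Classical.choose h)).f z else none
  have hg : ∀ z, g z ≠ none → ∃ i, (r i).f z ≠ none := by
    intro z hz
    by_contra h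
    apply hz
    simp only [g]
    rw [dif_neg h]
  have hsub : {z | g z ≠ none} ⊆ ⋃ i, {z | (r i).f z ≠ none} := by
    intro z hz
    obtain ⟨i, hi⟩ := hg z hz
    exact mem_iUnion.2 ⟨i, hi⟩
  refine ⟨⟨g, ?_⟩, ?_, hg⟩
  · refine (mk_le_mk_of_subset hsub).trans_lt ?_
    rw [card_iUnion_lt_iff_forall_of_isRegular hreg hI]
    exact fun i => (r i).small
  · intro i z b hb
    have h : ∃ i, (r i).f z ≠ none := ⟨i, by rw [hb]; simp⟩
    change g z = some b
    simp only [g]
    rw [dif_pos h]
    have h1 := Classical.choose_spec h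
    obtain ⟨b', hb'⟩ := Option.ne_none_iff_exists'.1 h1
    rw [hb', hc _ _ z _ _ hb' hb]

/-- Two conditions which agree on the common part of their domains are compatible. -/
theorem Add.exists_lower₂ (hreg : lam.IsRegular) (p q : Add lam Z)
    (hc : ∀ z b b', p.f z = some b → q.f z = some b' → b = b') :
    ∃ r : Add lam Z, r ≤ p ∧ r ≤ q ∧ ∀ z, r.f z ≠ none → p.f z ≠ none ∨ q.f z ≠ none := by
  obtain ⟨r, hr, hr'⟩ := Add.exists_lower hreg (I := ULift.{u} Bool)
    (by
      refine lt_of_lt_of_le ?_ hreg.aleph0_le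
      rw [lt_aleph0_iff_finite]
      infer_instance) (fun i => if i.down then p else q) (by
      rintro ⟨i⟩ ⟨j⟩ z b b' h1 h2
      cases i <;> cases j
      · simp at h1 h2
        rw [h1] at h2
        simpa using h2
      · simp at h1 h2
        exact (hc z b' b h2 h1).symm
      · simp at h1 h2
        exact hc z b b' h1 h2
      · simp at h1 h2
        rw [h1] at h2
        simpa using h2)
  refine ⟨r, by simpa using hr ⟨true⟩, by simpa using hr ⟨false⟩, fun z hz => ?_⟩
  obtain ⟨⟨i⟩, hi⟩ := hr' z hz
  cases i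
  · exact Or.inr (by simpa using hi)
  · exact Or.inl (by simpa using hi)

/-- The restriction of a condition. -/
noncomputable def Add.res (q : Add lam Z) (X : Set Z) : Add lam Z := by
  classical
  exact ⟨fun z => if z ∈ X then q.f z else none, by
    refine lt_of_le_of_lt (mk_le_mk_of_subset fun z hz => ?_) q.small
    intro h
    apply hz
    simp [h]⟩

theorem Add.res_of_mem {q : Add lam Z} {X : Set Z} {z : Z} (h : z ∈ X) :
    (q.res X).f z = q.f z := by
  simp [Add.res, h]

theorem Add.res_of_notMem {q : Add lam Z} {X : Set Z} {z : Z} (h : z ∉ X) :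
    (q.res X).f z = none := by
  simp [Add.res, h]

theorem Add.le_res {q : Add lam Z} {X : Set Z} : q ≤ q.res X := by
  intro z b h
  by_cases hz : z ∈ X
  · rwa [Add.res_of_mem hz] at h
  · rw [Add.res_of_notMem hz] at h
    exact absurd h (by simp)

/-- Change one value. -/
theorem Add.exists_set (hreg : lam.IsRegular) (q : Add lam Z) (z : Z) (hz : q.f z = none)
    (b : Bool) : ∃ r ≤ q, r.f z = some b ∧ ∀ z', z' ≠ z → r.f z' = q.f z' := by
  classical
  refine ⟨⟨fun z' => if z' = z then some b else q.f z', ?_⟩, ?_, ?_, ?_⟩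
  · have hsub : {z' | (if z' = z then some b else q.f z') ≠ none} ⊆
        insert z {z' | q.f z' ≠ none} := by
      intro z' hz'
      by_cases h : z' = z
      · exact Or.inl h
      · simp [h] at hz'
        exact Or.inr hz'
    refine (mk_le_mk_of_subset hsub).trans_lt (mk_insert_le.trans_lt ?_)
    exact add_lt_of_lt hreg.aleph0_le q.small (one_lt_aleph0.trans_le hreg.aleph0_le)
  · intro z' b' h
    by_cases h' : z' = z
    · subst h'
      rw [hz] at h
      exact absurd h (by simp)
    · simp [h', h]
  · simp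
  · intro z' h
    simp [h]

/-- The number of small subsets. -/
theorem card_small_le {K L : Type u} [LinearOrder K] [LinearOrder L] (S : Setup lam K L)
    (hpow : lam ^< lam ≤ lam) (α : Type u) (hα : #α ≤ lam) : #{t : Set α // #t < lam} ≤ lam := by
  have hL : Nonempty L := S.nonemptyL
  have hunc := S.unc
  let F : L → Set (Set α) := fun i => {t : Set α | #t ≤ #(Iio i)}
  have h1 : {t : Set α | #t < lam} ⊆ ⋃ i, F i := by
    intro t ht
    have h2 : #t ≤ #L := by rw [S.cardL]; exact (le_of_lt ht)
    obtain ⟨j⟩ := h2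
    obtain ⟨b, hb⟩ := S.bddL (range j) (mk_range_le.trans_lt ht)
    refine mem_iUnion.2 ⟨b, ?_⟩
    exact mk_le_of_injective (f := fun x => (⟨j x, hb _ ⟨x, rfl⟩⟩ : Iio b)) fun x y h =>
      j.injective (by simpa using h)
  have h2 : ∀ i, #(F i) ≤ lam := by
    intro i
    refine (mk_bounded_set_le α #(Iio i)).trans ?_
    calc (max #α ℵ₀) ^ #(Iio i) ≤ lam ^ #(Iio i) :=
          power_le_power_right (max_le hα hunc.le)
      _ ≤ lam ^< lam := le_powerlt _ (S.smallL i)
      _ ≤ lam := hpow
  calc #{t : Set α // #t < lam} ≤ #(⋃ i, F i) := mk_le_mk_of_subset h1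
    _ ≤ #L * ⨆ i, #(F i) := mk_iUnion_le F
    _ ≤ lam * lam := mul_le_mul' S.cardL.le (ciSup_le' h2)
    _ = lam := mul_eq_self hunc.le

theorem Add.card_le {K L : Type u} [LinearOrder K] [LinearOrder L] (S : Setup lam K L)
    (hpow : lam ^< lam ≤ lam) (X : Set Z) (hX : #X ≤ lam) :
    #{q : Add lam Z // ∀ z, q.f z ≠ none → z ∈ X} ≤ lam := by
  classical
  have hunc := S.unc
  have h1 : #(X × Bool) ≤ lam := by
    rw [mk_prod]
    simp only [lift_uzero, mk_bool, lift_ofNat]
    exact (mul_le_mul' hX (le_refl _)).trans (mul_le_of_le hunc.le le_rfl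
      ((natCast_lt_aleph0 (n := 2)).le.trans hunc.le))
  refine le_trans ?_ (card_small_le S hpow (X × Bool) h1)
  refine mk_le_of_injective (f := fun q => ⟨{x : X × Bool | q.1.f x.1 = some x.2}, ?_⟩) ?_
  · refine lt_of_le_of_lt ?_ q.1.small
    refine mk_le_of_injective (f := fun x : {x : X × Bool | q.1.f x.1 = some x.2} =>
      (⟨x.1.1, by
        have := x.2
        simp only [mem_ofPred_eq] at this
        simp [this]⟩ : {z | q.1.f z ≠ none})) ?_
    rintro ⟨⟨x, b⟩, hx⟩ ⟨⟨x', b'⟩, hx'⟩ h
    simp only [Subtype.mk.injEq, Subtype.coe_inj] at h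
    subst h
    simp only [mem_ofPred_eq] at hx hx'
    rw [hx] at hx'
    simp only [Option.some.injEq] at hx'
    subst hx'
    rfl
  · intro q q' h
    simp only [Subtype.mk.injEq] at h
    apply Subtype.ext
    cases hq : q.1 with
    | mk f hf =>
      cases hq' : q'.1 with
      | mk f' hf' =>
        have hff : f = f' := by
          funext z
          by_cases hz : z ∈ X
          · cases h1 : f z with
            | none =>
              cases h2 : f' z with
              | none => rfl
              | some b =>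
                have : ((⟨z, hz⟩, b) : X × Bool) ∈ {x : X × Bool | q'.1.f x.1 = some x.2} := by
                  simp [hq', h2]
                rw [← h] at this
                simp [hq, h1] at this
            | some b =>
              have : ((⟨z, hz⟩, b) : X × Bool) ∈ {x : X × Bool | q.1.f x.1 = some x.2} := by
                simp [hq, h1]
              rw [h] at this
              simp [hq'] at this
              exact this.symm
          · have h1 : f z = none := by
              by_contra hcon
              exact hz (q.2 z (by rw [hq]; exact hcon))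
            have h2 : f' z = none := by
              by_contra hcon
              exact hz (q'.2 z (by rw [hq']; exact hcon))
            rw [h1, h2]
        subst hff
        rfl

/-- `Add lam Z` is a union of `2 ^ λ` many sets of pairwise compatible conditions. -/
theorem Add.linked (hlam : ℵ₀ ≤ lam) (hZ : #Z ≤ 2 ^ (2 ^ lam : Cardinal.{u})) :
    ∃ (W : Type u) (code : Add lam Z → W), #W ≤ 2 ^ lam ∧
      ∀ q q', code q = code q' → ∀ z b b', q.f z = some b → q'.f z = some b' → b = b' := by
  classical
  let M : Type u := (2 ^ lam : Cardinal.{u}).out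
  have hM : #M = 2 ^ lam := mk_out _
  have hMinf : ℵ₀ ≤ #M := by
    rw [hM]
    exact hlam.trans (cantor lam).le
  obtain ⟨e⟩ : Nonempty (Z ↪ Set M) := by
    have : #Z ≤ #(Set M) := by rw [mk_set, hM]; exact hZ
    exact this
  have hm : ∀ z z' : Z, ∃ m : M, z ≠ z' → ¬ (m ∈ e z ↔ m ∈ e z') := by
    intro z z'
    haveI : Nonempty M := mk_ne_zero_iff.1 (aleph0_pos.trans_le hMinf).ne'
    by_cases h : z = z'
    · exact ⟨Classical.arbitrary M, fun h' => absurd h h'⟩
    · have : e z ≠ e z' := fun h' => h (e.injective h')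
      by_contra hcon
      push Not at hcon
      exact this (Set.ext fun m => (hcon m).2)
  choose m hm using hm
  let T : Type u := {t : Set M // #t ≤ lam}
  have hpow : #T ≤ 2 ^ lam := by
    refine (mk_bounded_set_le M lam).trans ?_
    rw [max_eq_left hMinf, hM, ← power_mul, mul_eq_self hlam]
  let Nq : Add lam Z → Set M := fun q => {x | ∃ z z', q.f z ≠ none ∧ q.f z' ≠ none ∧ x = m z z'}
  have hNq : ∀ q, #(Nq q) ≤ lam := by
    intro q
    have h1 : #(Nq q) ≤ #({z | q.f z ≠ none} × {z | q.f z ≠ none}) := by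
      refine mk_le_of_surjective (f := fun x => ⟨m x.1.1 x.2.1, x.1.1, x.2.1, x.1.2, x.2.2, rfl⟩) ?_
      rintro ⟨x, z, z', h1, h2, rfl⟩
      exact ⟨⟨⟨z, h1⟩, ⟨z', h2⟩⟩, rfl⟩
    refine h1.trans ?_
    rw [mk_prod]
    simp only [lift_id]
    exact (mul_le_mul' q.small.le q.small.le).trans (mul_eq_self hlam).le
  have hsub : ∀ q z, #(Nq q ∩ e z : Set M) ≤ lam := fun q z =>
    (mk_le_mk_of_subset inter_subset_left).trans (hNq q)
  let Gq : Add lam Z → Set (T × Bool) := fun q =>
    {x | ∃ z, q.f z = some x.2 ∧ x.1 = ⟨Nq q ∩ e z, hsub q z⟩}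
  have hGq : ∀ q, #(Gq q) ≤ lam := by
    intro q
    refine le_trans ?_ q.small.le
    have : ∀ x : Gq q, ∃ z : {z | q.f z ≠ none}, q.f z.1 = some x.1.2 ∧
        x.1.1 = ⟨Nq q ∩ e z, hsub q z⟩ := by
      rintro ⟨x, z, h1, h2⟩
      exact ⟨⟨z, by simp [h1]⟩, h1, h2⟩
    choose c hc using this
    refine mk_le_of_injective (f := c) fun x y hxy => ?_
    have h1 := hc x
    have h2 := hc y
    rw [hxy] at h1
    apply Subtype.ext
    apply Prod.ext
    · rw [h1.2, h2.2]
    · have := h1.1.symm.trans h2.1
      simpa using this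
  refine ⟨T × {g : Set (T × Bool) // #g ≤ lam}, fun q => (⟨Nq q, hNq q⟩, ⟨Gq q, hGq q⟩), ?_, ?_⟩
  · rw [mk_prod]
    simp only [lift_id]
    have h2 : #{g : Set (T × Bool) // #g ≤ lam} ≤ 2 ^ lam := by
      refine (mk_bounded_set_le _ lam).trans ?_
      have h3 : max #(T × Bool) ℵ₀ ≤ 2 ^ lam := by
        refine max_le ?_ (by rw [← hM]; exact hMinf)
        rw [mk_prod]
        simp only [lift_uzero, mk_bool, lift_ofNat]
        exact (mul_le_mul' hpow (le_refl _)).trans (mul_le_of_le (by rw [← hM]; exact hMinf) le_rfl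
          ((natCast_lt_aleph0 (n := 2)).le.trans (by rw [← hM]; exact hMinf)))
      refine (power_le_power_right h3).trans ?_
      rw [← power_mul, mul_eq_self hlam]
    refine (mul_le_mul' hpow h2).trans ?_
    rw [mul_eq_self (by rw [← hM]; exact hMinf)]
  · intro q q' h z b b' hb hb'
    have h1 : Nq q = Nq q' := congrArg (fun x => x.1.1) h
    have h2 : Gq q = Gq q' := congrArg (fun x => x.2.1) h
    have h3 : ((⟨Nq q ∩ e z, hsub q z⟩, b) : T × Bool) ∈ Gq q := ⟨z, hb, rfl⟩
    rw [h2] at h3
    obtain ⟨z', h4, h5'⟩ := h3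
    have h5 : Nq q ∩ e z = Nq q' ∩ e z' := congrArg Subtype.val h5'
    by_cases hzz : z = z'
    · subst hzz
      rw [h4] at hb'
      simpa using hb'
    · exfalso
      have h6 : m z z' ∈ Nq q' := ⟨z, z', by simp [hb'], by simp [h4], rfl⟩
      apply hm z z' hzz
      have h7 : m z z' ∈ Nq q := by rw [h1]; exact h6
      constructor
      · intro h8
        have : m z z' ∈ Nq q ∩ e z := ⟨h7, h8⟩
        rw [h5] at this
        exact this.2
      · intro h8
        have : m z z' ∈ Nq q' ∩ e z' := ⟨h6, h8⟩
        rw [← h5] at this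
        exact this.2

end

end Pool.Agent.V11248.Sq
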