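import Pool.Agent.V11248.Sq.Ground
import Pool.Agent.V11248.Sq.AddF

/-!
# The product of the square forcing and of the forcing adding subsets of `λ`
-/

namespace Pool.Agent.V11248.OS

open Cardinal Set Pool.Agent.Helper669.Forcing Pool.Agent.V11248.Sq

universe u

theorem setup_of {lam : Cardinal.{u}} (hreg : lam.IsRegular) (hunc : ℵ₀ < lam) :
    Setup lam (Order.succ lam).ord.ToType lam.ord.ToType := by
  have hb : ∀ κ : Cardinal.{u}, κ.IsRegular → ∀ A : Set κ.ord.ToType, #A < κ →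
      ∃ b, ∀ a ∈ A, a < b := by
    intro κ hκ A hA
    by_contra hcon
    push Not at hcon
    have hcof : IsCofinal A := fun b => by
      obtain ⟨x, hx, hb⟩ := hcon b
      exact ⟨x, hx, hb⟩
    have h1 := Order.cof_le hcof
    rw [Ordinal.cof_toType, hκ.cof_ord] at h1
    exact absurd h1 (not_le.2 hA)
  have hs : (Order.succ lam).IsRegular := isRegular_succ hreg.aleph0_le
  refine ⟨hreg, hunc, ?_, ?_, ?_, ?_, ?_⟩
  · intro A hA
    exact hb _ hs A (Order.lt_succ_of_le hA)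
  · intro a
    exact Order.le_of_lt_succ (mk_Iio_toType_ord_lt a)
  · exact hb _ hreg
  · intro a
    exact mk_Iio_toType_ord_lt a
  · exact mk_ord_toType lam

section

variable {lam : Cardinal.{u}} {K L N Z : Type u} [LinearOrder K] [LinearOrder L]
  [WellFoundedLT K] [WellFoundedLT L]

omit [WellFoundedLT K] [WellFoundedLT L] in
theorem add_chain (S : Setup lam K L) (i : L) (r : L → Add lam Z)
    (hr : ∀ j k, j ≤ k → k < i → r k ≤ r j) : ∃ q, ∀ j < i, q ≤ r j := by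
  obtain ⟨q, hq, _⟩ := Add.exists_lower S.reg (I := Iio i) (S.smallL i) (fun j => r j) (by
    intro j k z b b' h1 h2
    rcases le_total (j : L) k with h | h
    · have := hr j k h k.2 z b h1
      rw [this] at h2
      simpa using h2
    · have := hr k j h j.2 z b' h2
      rw [this] at h1
      simpa using h1.symm)
  exact ⟨q, fun j hj => hq ⟨j, hj⟩⟩

/-- The generic sequence guesses. -/
theorem guess_CN (S : Setup lam K L) (p : Cond K L N × Add lam Z) :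
    p ∈ Guess L (CN (K := K) (L := L) (N := N) (Q := Add lam Z)) := by
  intro A D θ hθ
  refine mem_fimp.2 fun p0 _ hp0 => ?_
  obtain ⟨hA, hD⟩ := hp0
  have hdA : ∀ i, Down (Unb (A i)) := fun i => down_Unb _
  -- the run
  obtain ⟨t, c, hr⟩ := exists_run S (fun i _ r hr => add_chain S i r hr)
    (fun i p p' c => ∃ d, p.1.top < d ∧ d < c ∧ p' ∈ meets (D d) ∧ p' ∈ meets (A i c)) p0 (by
      intro i p hp
      obtain ⟨p1, hp1, d, h1, h2⟩ := mem_fex.1 (hD.1 p.1.top) p hp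
      obtain ⟨p2, hp2, c, h3, h4⟩ := mem_fex.1 (hA i d) p1 (hp1.trans hp)
      obtain ⟨p3, hp3, h5⟩ := exists_top S p2 c
      refine ⟨p3, (hp3.trans hp2).trans hp1, c, h1.trans h3, h5, d, h1, h3, ?_, ?_⟩
      · exact down_meets _ _ h2 _ (hp3.trans hp2)
      · exact down_meets _ _ h4 _ hp3)
  obtain ⟨hl1, hl2, _, hl4⟩ := hr.lim θ hθ
  have hcm := hr.c_mono
  refine ⟨t θ, hr.le0 θ, mem_fex_of_mem (t θ).1.top ?_ ⟨hl1, mem_fex_of_mem
    (fun i x => fground (i < θ ∧ x = c i)) ?_ ⟨⟨?_, ?_, ?_, ?_, ?_⟩, ?_⟩⟩⟩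
  · exact down_fand (down_fground _) (down_fex _)
  · exact down_fand (down_Enum _ _ _) (down_fall fun _ => down_fall fun _ => down_fall fun _ =>
      down_fall fun _ => down_fall fun _ => down_fall fun _ => down_fimp _ _)
  · intro i hi
    exact mem_fex_of_mem (c i) (down_meets _) (meets_of_mem ⟨hi, rfl⟩)
  · intro i x
    refine fimp_of fun q hq h => ?_
    obtain ⟨_, _, _, ⟨h1, rfl⟩, _⟩ := h q le_rfl
    refine ⟨h1, ?_⟩
    rw [meets_CN hq.1.1, (hq.1.2 _ le_rfl).1, hl4]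
    exact ⟨i, h1, rfl⟩
  · intro x
    refine fimp_of fun q hq h => ?_
    rw [meets_CN hq.1.1, (hq.1.2 _ le_rfl).1, hl4] at h
    obtain ⟨i, hi, rfl⟩ := h
    exact mem_fex_of_mem i (down_meets _) (meets_of_mem ⟨hi, rfl⟩)
  · intro i x y
    refine fimp_of fun q hq h => ?_
    obtain ⟨_, _, _, ⟨_, rfl⟩, _⟩ := h.1 q le_rfl
    obtain ⟨_, _, _, ⟨_, rfl⟩, _⟩ := h.2 q le_rfl
    rfl
  · intro i j x y hij
    refine fimp_of fun q hq h => ?_
    obtain ⟨_, _, _, ⟨_, rfl⟩, _⟩ := h.1 q le_rfl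
    obtain ⟨_, _, _, ⟨_, rfl⟩, _⟩ := h.2 q le_rfl
    exact hcm hij
  · intro i j hi hij x y
    refine fimp_of fun q hq h => ?_
    obtain ⟨_, _, _, ⟨_, rfl⟩, _⟩ := h.1 q le_rfl
    obtain ⟨_, _, _, ⟨hj, rfl⟩, _⟩ := h.2 q le_rfl
    obtain ⟨_, d, h1, h2, h3, h4⟩ := hr.succ i j hij
    have hqj : q ≤ t j := hq.trans (hr.anti j θ hj.le)
    refine ⟨down_meets _ _ h4 _ hqj, mem_fex_of_mem d (down_fand (down_fground _) (down_meets _))
      ⟨⟨(hr.cle i).trans_lt h1, h2⟩, down_meets _ _ h3 _ hqj⟩⟩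

/-- Functions from sets of size less than `λ` to `L` are bounded. -/
theorem regular_L (S : Setup lam K L) {X : Type u} (hX : #X < lam)
    (R : X → L → Set (Cond K L N × Add lam Z)) (p : Cond K L N × Add lam Z) :
    p ∈ fimp (IsFun R) (fex fun b : L => fall fun x => fall fun y =>
      fimp (meets (R x y)) (fground (y < b))) := by
  classical
  refine mem_fimp.2 fun p0 _ hp0 => ?_
  haveI := S.noMaxL
  haveI := S.noMaxK
  have hLX : #X ≤ #L := by rw [S.cardL]; exact hX.le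
  obtain ⟨e⟩ := hLX
  obtain ⟨t, c, hr⟩ := exists_run S (fun i _ r hr => add_chain S i r hr)
    (fun i _ p' _ => ∀ x, e x = i → ∃ y, p' ∈ meets (R x y)) p0 (by
      intro i p hp
      obtain ⟨b, hb⟩ := exists_gt p.1.top
      by_cases hx : ∃ x, e x = i
      · obtain ⟨x, hx⟩ := hx
        obtain ⟨p1, hp1, y, hy⟩ := IsFun.total (down_IsFun R _ hp0 _ hp) x
        obtain ⟨p2, hp2, h1⟩ := exists_top S p1 b
        refine ⟨p2, hp2.trans hp1, b, hb, h1, fun x' hx' => ?_⟩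
        have : x' = x := e.injective (hx'.trans hx.symm)
        subst this
        exact ⟨y, down_meets _ _ hy _ hp2⟩
      · obtain ⟨p2, hp2, h1⟩ := exists_top S p b
        exact ⟨p2, hp2, b, hb, h1, fun x' hx' => absurd ⟨x', hx'⟩ hx⟩)
  obtain ⟨θ, hθ⟩ := S.bddL (range e) (mk_range_le.trans_lt hX)
  have hval : ∀ x, ∃ y, t θ ∈ meets (R x y) := by
    intro x
    obtain ⟨j, hj⟩ := exists_covBy_of_wellFoundedLT (a := e x) (not_isMax _)
    obtain ⟨y, hy⟩ := (hr.succ _ j hj).2 x rfl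
    have hjθ : j ≤ θ := not_lt.1 fun h => hj.2 (hθ _ ⟨x, rfl⟩) h
    exact ⟨y, down_meets _ _ hy _ (hr.anti j θ hjθ)⟩
  choose y hy using hval
  obtain ⟨b, hb⟩ := S.bddL (range y) (mk_range_le.trans_lt hX)
  refine ⟨t θ, hr.le0 θ, mem_fex_of_mem b (down_fall fun _ => down_fall fun _ => down_fimp _ _) ?_⟩
  intro x y'
  refine fimp_of fun q hq h => ?_
  have hf := down_IsFun R _ hp0 _ (hq.trans (hr.le0 θ))
  have : y' = y x := IsFun.unique hf h (down_meets _ _ (hy x) _ hq)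
  rw [this]
  exact hb _ ⟨x, rfl⟩

/-- Functions from sets of size at most `λ` to `K` are bounded. -/
theorem regular_K (S : Setup lam K L) (hpow : lam ^< lam ≤ lam) {X : Type u} (hX : #X ≤ lam)
    (R : X → K → Set (Cond K L N × Add lam Z)) (p : Cond K L N × Add lam Z) :
    p ∈ fimp (IsFun R) (fex fun b : K => fall fun x => fall fun y =>
      fimp (meets (R x y)) (fground (y < b))) := by
  classical
  refine mem_fimp.2 fun p0 _ hp0 => ?_
  haveI := S.noMaxL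
  haveI := S.noMaxK
  haveI := S.nonemptyL
  have hinf : ℵ₀ ≤ lam := S.unc.le
  -- one step
  have step : ∀ (s : Cond K L N) (W : Set Z), s ≤ p0.1 → #W ≤ lam →
      ∃ s' ≤ s, ∃ W' : Set Z, W ⊆ W' ∧ #W' ≤ lam ∧ ∃ b : K, ∀ r : Add lam Z, r ≤ p0.2 →
        (∀ z, r.f z ≠ none → z ∈ W) → ∀ x : X, ∃ r' ≤ r, (∀ z, r'.f z ≠ none → z ∈ W') ∧
          ∃ y < b, (s', r') ∈ meets (R x y) := by
    intro s W hs hW
    let J : Type u := {r : Add lam Z // ∀ z, r.f z ≠ none → z ∈ W} × X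
    have hJ : #J ≤ lam := by
      simp only [J, mk_prod, lift_id]
      exact (mul_le_mul' (Add.card_le S hpow W hW) hX).trans (mul_eq_self hinf).le
    obtain ⟨s', hs', h1⟩ := exists_mem_all S s hJ
      (fun j => {s' : Cond K L N | j.1.1 ≤ p0.2 → ∃ r' ≤ j.1.1, ∃ y, (s', r') ∈ meets (R j.2 y)})
      (by
        intro j s1 h1 s2 h2 h3
        obtain ⟨r', hr', y, hy⟩ := h1 h3
        exact ⟨r', hr', y, down_meets _ _ hy _ ⟨h2, le_rfl⟩⟩)
      (by
        intro j s1 hs1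
        by_cases hj : j.1.1 ≤ p0.2
        · obtain ⟨q, hq, y, hy⟩ := IsFun.total (down_IsFun R _ hp0 (s1, j.1.1) ⟨hs1.trans hs, hj⟩) j.2
          exact ⟨q.1, hq.1, fun _ => ⟨q.2, hq.2, y, hy⟩⟩
        · exact ⟨s1, le_rfl, fun h => absurd h hj⟩)
    have h2 : ∀ j : J, ∃ (r' : Add lam Z) (y : K), j.1.1 ≤ p0.2 →
        r' ≤ j.1.1 ∧ (s', r') ∈ meets (R j.2 y) := by
      intro j
      by_cases hj : j.1.1 ≤ p0.2
      · obtain ⟨r', hr', y, hy⟩ := h1 j hj
        exact ⟨r', y, fun _ => ⟨hr', hy⟩⟩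
      · exact ⟨p0.2, p0.1.top, fun h => absurd h hj⟩
    choose r' y h3 using h2
    obtain ⟨b, hb⟩ := S.bddK (range y) (mk_range_le.trans hJ)
    refine ⟨s', hs', W ∪ ⋃ j, {z | (r' j).f z ≠ none}, subset_union_left, ?_, b, ?_⟩
    · refine (mk_union_le _ _).trans (add_le_of_le hinf hW ?_)
      refine (mk_iUnion_le _).trans ?_
      refine (mul_le_mul' hJ (ciSup_le' fun j => (r' j).small.le)).trans (mul_eq_self hinf).le
    · intro r hr hrW x
      have h4 := h3 (⟨r, hrW⟩, x) hr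
      refine ⟨r' (⟨r, hrW⟩, x), h4.1, fun z hz => Or.inr (mem_iUnion.2 ⟨(⟨r, hrW⟩, x), hz⟩),
        y (⟨r, hrW⟩, x), hb _ ⟨_, rfl⟩, h4.2⟩
  -- the run, along sets of size at most `λ`
  let QQ : Type u := {W : Set Z // #W ≤ lam ∧ {z | p0.2.f z ≠ none} ⊆ W}ᵒᵈ
  obtain ⟨t, c, hr⟩ := exists_run S (Q := QQ)
    (by
      intro i _ r hr
      refine ⟨(⟨{z | p0.2.f z ≠ none} ∪ ⋃ j : Iio i, (r j).1, ?_, subset_union_left⟩ :
        {W : Set Z // #W ≤ lam ∧ {z | p0.2.f z ≠ none} ⊆ W}), ?_⟩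
      · refine (mk_union_le _ _).trans (add_le_of_le hinf p0.2.small.le ?_)
        refine (mk_iUnion_le _).trans ?_
        exact (mul_le_mul' (S.smallL i).le (ciSup_le' fun j : Iio i => (r j).2.1)).trans
          (mul_eq_self hinf).le
      · intro j hj
        change (r j).1 ⊆ _
        intro z hz
        exact Or.inr (mem_iUnion.2 ⟨⟨j, hj⟩, hz⟩))
    (fun i p p' _ => ∃ b : K, ∀ r : Add lam Z, r ≤ p0.2 →
        (∀ z, r.f z ≠ none → z ∈ p.2.1) → ∀ x : X, ∃ r' ≤ r, (∀ z, r'.f z ≠ none → z ∈ p'.2.1) ∧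
          ∃ y < b, (p'.1, r') ∈ meets (R x y))
    (p0.1, (⟨{z | p0.2.f z ≠ none}, p0.2.small.le, Subset.rfl⟩ :
      {W : Set Z // #W ≤ lam ∧ {z | p0.2.f z ≠ none} ⊆ W}))
    (by
      intro i p hp
      obtain ⟨s', hs', W', hW', hW'', b, hb⟩ := step p.1 p.2.1 hp.1 p.2.2.1
      obtain ⟨c, hc⟩ := exists_gt s'.top
      obtain ⟨s'', hs'', hc', _⟩ := exists_ext S s' hc.le s'.nu
      refine ⟨(s'', (⟨W', hW'', p.2.2.2.trans hW'⟩ :
        {W : Set Z // #W ≤ lam ∧ {z | p0.2.f z ≠ none} ⊆ W})), ⟨hs''.trans hs', hW'⟩, c,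
        hs'.1.trans_lt hc, hc'.ge, b, ?_⟩
      intro r hr hrW x
      obtain ⟨r', h1, h2, y, h3, h4⟩ := hb r hr hrW x
      exact ⟨r', h1, h2, y, h3, down_meets _ _ h4 _ ⟨hs'', le_rfl⟩⟩)
  obtain ⟨s, hs⟩ := hr.exists_top S
  have hnext : ∀ i : L, ∃ j, i ⋖ j := fun i => exists_covBy_of_wellFoundedLT (not_isMax i)
  choose nx hnx using hnext
  have hbs : ∀ i : L, ∃ b : K, ∀ r : Add lam Z, r ≤ p0.2 →
        (∀ z, r.f z ≠ none → z ∈ (t i).2.1) → ∀ x : X, ∃ r' ≤ r,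
          (∀ z, r'.f z ≠ none → z ∈ (t (nx i)).2.1) ∧ ∃ y < b, ((t (nx i)).1, r') ∈ meets (R x y) :=
    fun i => (hr.succ i (nx i) (hnx i)).2
  choose bi hbi using hbs
  obtain ⟨b, hb⟩ := S.bddK (range bi) (mk_range_le.trans S.cardL.le)
  have hs0 : s ≤ p0.1 := (hs (Classical.arbitrary L)).trans (hr.le0 _).1
  refine ⟨(s, p0.2), ⟨hs0, le_rfl⟩,
    mem_fex_of_mem b (down_fall fun _ => down_fall fun _ => down_fimp _ _) ?_⟩
  intro x y
  refine fimp_of fun q hq h => ?_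
  have hq0 : q ≤ p0 := ⟨hq.1.trans hs0, hq.2⟩
  -- the restriction to the union of the sets
  have hmono : ∀ i j : L, i ≤ j → (t i).2.1 ⊆ (t j).2.1 := fun i j hij => (hr.anti i j hij).2
  let X' : Set Z := {z | ∃ i : L, z ∈ (t i).2.1}
  have hidx : ∀ z : {z | q.2.f z ≠ none ∧ z ∈ X'}, ∃ i : L, z.1 ∈ (t i).2.1 := fun z => z.2.2
  choose idx hidx using hidx
  obtain ⟨i, hi⟩ := S.bddL (range idx) (mk_range_le.trans_lt
    ((mk_le_mk_of_subset (fun z hz => hz.1)).trans_lt q.2.small))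
  have hr0 : q.2.res X' ≤ p0.2 := by
    intro z b' hz
    have h1 : z ∈ (t i).2.1 := (t i).2.2.2 (show p0.2.f z ≠ none by rw [hz]; simp)
    rw [Add.res_of_mem (show z ∈ X' from ⟨i, h1⟩)]
    exact hq.2 z b' hz
  have hrW : ∀ z, (q.2.res X').f z ≠ none → z ∈ (t i).2.1 := by
    intro z hz
    by_cases hzX : z ∈ X'
    · rw [Add.res_of_mem hzX] at hz
      have h0 : z ∈ {z | q.2.f z ≠ none ∧ z ∈ X'} := ⟨hz, hzX⟩
      exact hmono (idx ⟨z, h0⟩) i (hi _ (mem_range_self _)).le (hidx ⟨z, h0⟩)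
    · rw [Add.res_of_notMem hzX] at hz
      exact absurd rfl hz
  obtain ⟨r', h1, h2, y', h3, h4⟩ := hbi i _ hr0 hrW x
  obtain ⟨r'', h5, h6, _⟩ := Add.exists_lower₂ S.reg r' q.2 (by
    intro z b1 b2 hb1 hb2
    have hz : z ∈ X' := ⟨nx i, h2 z (by rw [hb1]; simp)⟩
    have h7 : (q.2.res X').f z = some b2 := by rw [Add.res_of_mem hz]; exact hb2
    have h8 := h1 z b2 h7
    rw [hb1] at h8
    simpa using h8)
  have h7 : (q.1, r'') ∈ meets (R x y') := down_meets _ _ h4 _ ⟨hq.1.trans (hs (nx i)), h5⟩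
  have h8 : (q.1, r'') ∈ meets (R x y) := down_meets _ _ h _ ⟨le_rfl, h6⟩
  have h9 : y = y' := IsFun.unique (down_IsFun R _ hp0 _ (show (q.1, r'') ≤ p0 from
    ⟨hq0.1, h6.trans hq0.2⟩)) h8 h7
  rw [h9]
  exact h3.trans (hb _ ⟨i, rfl⟩)

omit [WellFoundedLT K] [WellFoundedLT L] in
theorem card_Iic_le (S : Setup lam K L) (a : K) : #(Iic a) ≤ lam := by
  have := S.noMaxK
  obtain ⟨b, hb⟩ := exists_gt a
  exact (mk_le_mk_of_subset fun x hx => lt_of_le_of_lt hx hb).trans (S.smallK b)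

/-- The conditions of the square forcing, up to equivalence, number at most `2 ^ λ`. -/
theorem exists_code (S : Setup lam K L) (hK : #K ≤ 2 ^ lam) :
    ∃ (W : Type u) (code : Cond K L PUnit.{u + 1} → W), #W ≤ 2 ^ lam ∧
      ∀ s s', code s = code s' → s ≤ s' := by
  have hinf : ℵ₀ ≤ lam := S.unc.le
  have h2 : ℵ₀ ≤ (2 : Cardinal.{u}) ^ lam := hinf.trans (cantor lam).le
  have hg : ∀ s : Cond K L PUnit.{u + 1}, #{x : K × K | x.1 ≤ s.top ∧ x.2 ∈ s.C x.1} ≤ lam := by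
    intro s
    have h1 : {x : K × K | x.1 ≤ s.top ∧ x.2 ∈ s.C x.1} ⊆ (Iic s.top) ×ˢ (Iic s.top) := by
      rintro ⟨a, b⟩ ⟨h1, h2⟩
      refine ⟨h1, ?_⟩
      by_cases ha : IsLim a
      · exact ((s.sq.1 a h1 ha).sub b h2).le.trans h1
      · rw [s.sq.2 a ha] at h2
        exact absurd h2 (Set.notMem_empty _)
    refine (mk_le_mk_of_subset h1).trans ?_
    rw [mk_setProd]
    exact (mul_le_mul' (card_Iic_le S _) (card_Iic_le S _)).trans (mul_eq_self hinf).le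
  refine ⟨K × {t : Set (K × K) // #t ≤ lam}, fun s => (s.top, ⟨_, hg s⟩), ?_, ?_⟩
  · rw [mk_prod]
    simp only [lift_id]
    refine (mul_le_mul' hK ?_).trans (mul_eq_self h2).le
    refine (mk_bounded_set_le _ lam).trans ?_
    have h3 : max #(K × K) ℵ₀ ≤ 2 ^ lam := by
      refine max_le ?_ h2
      rw [mk_prod]
      simp only [lift_id]
      exact (mul_le_mul' hK hK).trans (mul_eq_self h2).le
    refine (power_le_power_right h3).trans ?_
    rw [← power_mul, mul_eq_self hinf]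
  · intro s s' h
    have h1 : s.top = s'.top := congrArg Prod.fst h
    have h3 : {x : K × K | x.1 ≤ s.top ∧ x.2 ∈ s.C x.1} =
        {x : K × K | x.1 ≤ s'.top ∧ x.2 ∈ s'.C x.1} := congrArg (fun x => x.2.1) h
    refine ⟨h1.ge, fun a ha => ⟨?_, Subsingleton.elim _ _⟩⟩
    ext b
    have ha' : a ≤ s.top := by rw [h1]; exact ha
    constructor
    · intro hb
      have : ((a, b) : K × K) ∈ {x : K × K | x.1 ≤ s.top ∧ x.2 ∈ s.C x.1} := ⟨ha', hb⟩
      rw [h3] at this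
      exact this.2
    · intro hb
      have : ((a, b) : K × K) ∈ {x : K × K | x.1 ≤ s'.top ∧ x.2 ∈ s'.C x.1} := ⟨ha, hb⟩
      rw [← h3] at this
      exact this.2

/-- The power set of `L` is large. -/
theorem not_powLe (S : Setup lam K L) (hK : #K ≤ 2 ^ lam) {J : Type u} (hJ : 2 ^ lam < #J)
    (hJ' : #J ≤ 2 ^ (2 ^ lam : Cardinal.{u})) (p : Cond K L PUnit.{u + 1} × Add lam (J × L)) :
    p ∈ fnot (PowLe (Cond K L PUnit.{u + 1} × Add lam (J × L)) K L) := by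
  classical
  intro q _ hq
  obtain ⟨p0, _, E, hE⟩ := mem_fex.1 hq q le_rfl
  have hinf : ℵ₀ ≤ lam := S.unc.le
  have h2 : ℵ₀ ≤ (2 : Cardinal.{u}) ^ lam := hinf.trans (cantor lam).le
  have h3 : ∀ j : J, ∃ p1 ≤ p0, ∃ k : K, p1 ∈ fall fun i : L =>
      fand (fimp (meets {p : Cond K L PUnit.{u + 1} × Add lam (J × L) | p.2.f (j, i) = some true})
          (meets (E k i)))
        (fimp (meets (E k i))
          (meets {p : Cond K L PUnit.{u + 1} × Add lam (J × L) | p.2.f (j, i) = some true})) :=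
    fun j => mem_fex.1 (hE fun i => {p | p.2.f (j, i) = some true}) p0 le_rfl
  choose P1 hP1 k hk using h3
  obtain ⟨W, code, hW, hcode⟩ := exists_code S hK
  have hZ : #(J × L) ≤ 2 ^ (2 ^ lam : Cardinal.{u}) := by
    have h4 : (2 : Cardinal.{u}) ^ lam ≤ 2 ^ (2 ^ lam : Cardinal.{u}) := (cantor _).le
    rw [mk_prod]
    simp only [lift_id]
    rw [S.cardL]
    exact (mul_le_mul' hJ' ((cantor lam).le.trans h4)).trans (mul_eq_self (h2.trans h4)).le
  obtain ⟨W', code', hW', hcode'⟩ := Add.linked hinf hZ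
  have hnin : ¬ Function.Injective fun j : J => (k j, code (P1 j).1, code' (P1 j).2) := by
    intro hinj
    have h4 := mk_le_of_injective hinj
    refine absurd (hJ.trans_le h4) (not_lt.2 ?_)
    simp only [mk_prod, lift_id]
    refine (mul_le_mul' hK ((mul_le_mul' hW hW').trans (mul_eq_self h2).le)).trans
      (mul_eq_self h2).le
  rw [Function.Injective] at hnin
  push Not at hnin
  obtain ⟨j, j', h5, hjj⟩ := hnin
  simp only [Prod.mk.injEq] at h5
  obtain ⟨h5, h6, h7⟩ := h5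
  obtain ⟨r, hr1, hr2, _⟩ := Add.exists_lower₂ S.reg (P1 j).2 (P1 j').2 (hcode' _ _ h7)
  -- a coordinate outside of the domain
  obtain ⟨i, hi1, hi2⟩ : ∃ i : L, r.f (j, i) = none ∧ r.f (j', i) = none := by
    by_contra hcon
    push Not at hcon
    have h8 : ∀ i : L, ∃ z : {z | r.f z ≠ none}, z.1.2 = i := by
      intro i
      by_cases h9 : r.f (j, i) = none
      · exact ⟨⟨(j', i), hcon i h9⟩, rfl⟩
      · exact ⟨⟨(j, i), h9⟩, rfl⟩
    choose z hz using h8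
    have h9 : #L ≤ #{z | r.f z ≠ none} := mk_le_of_injective (f := z) fun a b hab => by
      rw [← hz a, ← hz b, hab]
    rw [S.cardL] at h9
    exact absurd r.small (not_lt.2 h9)
  obtain ⟨r1, hr3, hr4, hr5⟩ := Add.exists_set S.reg r (j, i) hi1 true
  obtain ⟨r2, hr6, hr7, hr8⟩ := Add.exists_set S.reg r1 (j', i) (by
    rw [hr5 _ (fun h => hjj (congrArg Prod.fst h).symm)]
    exact hi2) false
  have hr9 : r2.f (j, i) = some true := hr6 _ _ hr4
  let s := (P1 j).1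
  have hs1 : s ≤ (P1 j).1 := le_rfl
  have hs2 : s ≤ (P1 j').1 := hcode _ _ h6
  let q0 : Cond K L PUnit.{u + 1} × Add lam (J × L) := (s, r2)
  have hq1 : q0 ≤ P1 j := ⟨hs1, (hr6.trans hr3).trans hr1⟩
  have hq2 : q0 ≤ P1 j' := ⟨hs2, (hr6.trans hr3).trans hr2⟩
  obtain ⟨q1, hq3, hq4⟩ := mem_fimp.1 (hk j i).1 q0 hq1 (meets_of_mem hr9)
  rw [h5] at hq4
  obtain ⟨q2, hq5, hq6⟩ := mem_fimp.1 (hk j' i).2 q1 (hq3.trans hq2) hq4
  obtain ⟨q3, hq7, q4, hq8, hq9⟩ := hq6 q2 le_rfl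
  have h10 : q3.2.f (j', i) = some true := hq9.2 _ _ hq8
  have h11 : q3.2.f (j', i) = some false := (hq7.trans (hq5.trans hq3)).2 _ _ hr7
  rw [h10] at h11
  simp at h11

end

end Pool.Agent.V11248.OS
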