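import Mathlib

/-!
# Square sequences on well-ordered sets, and the conditions of the square forcing
-/

namespace Pool.Agent.V11248.Sq

open Cardinal Set

universe u v w

/-- `a` is a limit element: it is not the least element and has no immediate predecessor. -/
def IsLim {K : Type v} [LinearOrder K] (a : K) : Prop :=
  (∃ b, b < a) ∧ ∀ b < a, ∃ c, b < c ∧ c < a

/-- Recursion on a well-founded order with choices. -/
theorem wf_choice {I : Type v} {A : Type w} [LT I] [WellFoundedLT I] [Nonempty A]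
    (G : ∀ i : I, (∀ j, j < i → A) → A → Prop)
    (h : ∀ (i : I) (f : I → A), (∀ j < i, G j (fun k _ => f k) (f j)) →
      ∃ a, G i (fun k _ => f k) a) :
    ∃ f : I → A, ∀ i, G i (fun k _ => f k) (f i) := by
  classical
  let F : ∀ i : I, (∀ j, j < i → A) → A := fun i r =>
    if hh : ∃ a, G i r a then Classical.choose hh else Classical.arbitrary A
  let f : I → A := (wellFounded_lt (α := I)).fix F
  have hf : ∀ i, f i = F i (fun k _ => f k) := fun i => WellFounded.fix_eq _ F i
  refine ⟨f, fun i => ?_⟩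
  induction i using (wellFounded_lt (α := I)).induction with
  | _ i ih =>
    have hh := h i f ih
    have h2 : f i = Classical.choose hh := by
      rw [hf i]
      simp only [F]
      rw [dif_pos hh]
    rw [h2]
    exact Classical.choose_spec hh

/-- The properties of the sets `K` (of order type `λ⁺`) and `L` (of order type `λ`) in use. -/
structure Setup (lam : Cardinal.{u}) (K L : Type u) [LinearOrder K] [LinearOrder L] : Prop where
  reg : lam.IsRegular
  unc : ℵ₀ < lam
  bddK : ∀ A : Set K, #A ≤ lam → ∃ b, ∀ a ∈ A, a < b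
  smallK : ∀ a : K, #(Iio a) ≤ lam
  bddL : ∀ A : Set L, #A < lam → ∃ b, ∀ a ∈ A, a < b
  smallL : ∀ a : L, #(Iio a) < lam
  cardL : #L = lam

section

variable {K L N : Type u} [LinearOrder K] [LinearOrder L]

/-- The set `C a` is a club in the limit element `a`, it embeds into `L`, and it is coherent with
the sets `C b`. -/
structure SqAt (L : Type u) [LinearOrder L] (C : K → Set K) (a : K) : Prop where
  sub : ∀ b ∈ C a, b < a
  unb : ∀ b < a, ∃ c ∈ C a, b < c
  cl : ∀ b < a, IsLim b → (∀ c < b, ∃ d ∈ C a, c < d ∧ d < b) → b ∈ C a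
  otp : ∃ g : K → L, StrictMonoOn g (C a)
  coh : ∀ b ∈ C a, IsLim b → (∀ c < b, ∃ d ∈ C a, c < d ∧ d < b) → C b = C a ∩ Iio b

/-- `C` is a square sequence up to `b`. -/
def SqTo (L : Type u) [LinearOrder L] (C : K → Set K) (b : K) : Prop :=
  (∀ a ≤ b, IsLim a → SqAt L C a) ∧ ∀ a, ¬ IsLim a → C a = ∅

end

section

variable {lam : Cardinal.{u}} {K L N : Type u} [LinearOrder K] [LinearOrder L]
  [WellFoundedLT K] [WellFoundedLT L]

theorem exists_least {α : Type v} [LinearOrder α] [WellFoundedLT α] {p : α → Prop}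
    (h : ∃ a, p a) : ∃ a, p a ∧ ∀ b < a, ¬ p b := by
  classical
  obtain ⟨a, ha, hm⟩ := (wellFounded_lt (α := α)).has_min {a | p a} h
  exact ⟨a, ha, fun b hb hp => hm b hp hb⟩

/-- Every limit element has a club which embeds into `L`. -/
theorem exists_club (S : Setup lam K L) {b : K} (hb : IsLim b) :
    ∃ D : Set K, (∀ x ∈ D, x < b) ∧ (∀ x < b, ∃ y ∈ D, x < y) ∧
      (∀ x < b, IsLim x → (∀ y < x, ∃ z ∈ D, y < z ∧ z < x) → x ∈ D) ∧
      ∃ g : K → L, StrictMonoOn g D := by
  classical
  have : Nonempty K := ⟨b⟩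
  have hne : Nonempty (Iio b) := by
    obtain ⟨c, hc⟩ := hb.1
    exact ⟨⟨c, hc⟩⟩
  -- a surjection from `L` onto `Iio b`
  obtain ⟨e, he⟩ : ∃ e : L → Iio b, Function.Surjective e := by
    have h1 : #(Iio b) ≤ #L := by rw [S.cardL]; exact S.smallK b
    obtain ⟨i⟩ := h1
    exact ⟨Function.invFun i, Function.invFun_surjective i.injective⟩
  -- the increasing continuous sequence
  obtain ⟨c, hc⟩ := wf_choice (I := L) (A := K)
    (fun i f a => (∀ j (hj : j < i), f j hj < a ∧ (e j : K) < a) ∧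
      ∀ x < a, ∃ j, ∃ hj : j < i, x ≤ f j hj ∨ x ≤ (e j : K)) (by
    intro i f _
    have h1 : ∃ a, ∀ j < i, f j < a ∧ (e j : K) < a := by
      obtain ⟨b1, hb1⟩ := S.bddK (f '' Iio i)
        (mk_image_le.trans ((S.smallL i).le))
      refine ⟨max b1 b, fun j hj => ⟨lt_max_of_lt_left (hb1 _ ⟨j, hj, rfl⟩),
        lt_max_of_lt_right (e j).2⟩⟩
    obtain ⟨a, ha, hmin⟩ := exists_least h1
    refine ⟨a, ha, fun x hx => ?_⟩
    have h2 := hmin x hx
    push Not at h2
    obtain ⟨j, hj, h3⟩ := h2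
    by_cases h4 : f j < x
    · exact ⟨j, hj, Or.inr (h3 h4)⟩
    · exact ⟨j, hj, Or.inl (not_lt.1 h4)⟩)
  have hcm : StrictMono c := fun i j hij => ((hc j).1 i hij).1
  let D : Set K := {x | ∃ i, c i = x ∧ x < b}
  -- if `c i` reaches `b` then `c` is cofinal in `b` below `i`
  have hcof : ∀ x < b, ∃ i, x < c i ∧ c i < b := by
    intro x hx
    by_cases h : ∃ i, b ≤ c i
    · obtain ⟨i, hi, hmin⟩ := exists_least h
      have hlt : ∀ j < i, c j < b := fun j hj => not_le.1 (hmin j hj)
      obtain ⟨x', hx', hx'b⟩ := hb.2 x hx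
      obtain ⟨j, hj, h1⟩ := (hc i).2 x' (hx'b.trans_le hi)
      rcases h1 with h1 | h1
      · exact ⟨j, hx'.trans_le h1, hlt j hj⟩
      · -- `x' ≤ e j`; consider the successor of `j`
        by_cases h2 : ∃ k, j < k ∧ k < i
        · obtain ⟨k, hk, hki⟩ := h2
          exact ⟨k, hx'.trans (h1.trans_lt ((hc k).1 j hk).2), hlt k hki⟩
        · push Not at h2
          -- `i` is the successor of `j`
          exfalso
          have h3 : ∀ k < i, k ≤ j := fun k hk => not_lt.1 fun h' => absurd hk (not_lt.2 (h2 k h'))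
          obtain ⟨y, hy1, hy2⟩ := hb.2 (max (c j) (e j : K)) (max_lt (hlt j hj) (e j).2)
          obtain ⟨k, hk, h4⟩ := (hc i).2 y (hy2.trans_le hi)
          have hkj := h3 k hk
          rcases h4 with h4 | h4
          · exact absurd (lt_of_le_of_lt (le_max_left _ _) hy1)
              (not_lt.2 (h4.trans (hcm.monotone hkj)))
          · rcases hkj.eq_or_lt with h5 | h5
            · subst h5
              exact absurd (lt_of_le_of_lt (le_max_right _ _) hy1) (not_lt.2 h4)
            · exact absurd (lt_of_le_of_lt (le_max_left _ _) hy1)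
                (not_lt.2 (h4.trans (((hc j).1 k h5).2.le)))
    · push Not at h
      obtain ⟨j, hj⟩ := he ⟨x, hx⟩
      obtain ⟨k, hk⟩ : ∃ k, j < k := by
        obtain ⟨k, hk⟩ := S.bddL {j} (by
          rw [mk_singleton]
          exact one_lt_aleph0.trans S.unc)
        exact ⟨k, hk j rfl⟩
      refine ⟨k, ?_, h k⟩
      have := ((hc k).1 j hk).2
      rw [hj] at this
      exact this
  refine ⟨D, ?_, ?_, ?_, ?_⟩
  · rintro x ⟨i, rfl, hx⟩
    exact hx
  · intro x hx
    obtain ⟨i, hi, hi'⟩ := hcof x hx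
    exact ⟨c i, ⟨i, rfl, hi'⟩, hi⟩
  · intro x hx hlim hacc
    obtain ⟨i0, hi0, hi0'⟩ := hcof x hx
    obtain ⟨i, hi, hmin⟩ := exists_least (p := fun i => x ≤ c i) ⟨i0, hi0.le⟩
    refine ⟨i, le_antisymm ?_ hi, hx⟩
    by_contra hlt
    push Not at hlt
    obtain ⟨j, hj, h1⟩ := (hc i).2 x hlt
    have hj' : c j < x := not_le.1 (hmin j hj)
    rcases h1 with h1 | h1
    · exact absurd hj' (not_lt.2 h1)
    · obtain ⟨z, ⟨k, rfl, hkb⟩, hz1, hz2⟩ := hacc (c j) hj'
      have hki : k < i := by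
        by_contra h'
        exact absurd (hz2.trans_le hi) (not_lt.2 (hcm.monotone (not_lt.1 h')))
      have hjk : j < k := hcm.lt_iff_lt.1 hz1
      exact absurd (((hc k).1 j hjk).2.trans hz2) (not_lt.2 h1)
  · haveI : Nonempty L := by
      obtain ⟨i, _⟩ := hcof _ hb.1.choose_spec
      exact ⟨i⟩
    refine ⟨Function.invFun c, ?_⟩
    rintro x ⟨i, rfl, _⟩ y ⟨j, rfl, _⟩ hxy
    rw [Function.leftInverse_invFun hcm.injective i, Function.leftInverse_invFun hcm.injective j]
    exact hcm.lt_iff_lt.1 hxy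

end

end Pool.Agent.V11248.Sq
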