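import Mathlib
import Pool.Agent.Helper669.Forcing
import Pool.Agent.V11248.Sq.Basic

/-!
# The Ostaszewski square, in the language of forcing

`L` is a well-ordered set of order type `λ` and `K` is one of order type `λ⁺`.
-/

namespace Pool.Agent.V11248.OS

open Cardinal Pool.Agent.Helper669.Forcing Pool.Agent.V11248.Sq

universe u

section

variable {P : Type u} [Preorder P] {K L : Type u} [LinearOrder K] [LinearOrder L]

/-- The named subset `A` of `K` is unbounded. -/
def Unb (A : K → Set P) : Set P :=
  fall fun b : K => fex fun a : K => fand (fground (b < a)) (meets (A a))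

/-- The supremum of the members of `A` below `b` is `b`. -/
def Acc (A : K → Set P) (b : K) : Set P :=
  fall fun c : K => fall fun _ : c < b => fex fun d : K =>
    fand (fground (c < d ∧ d < b)) (meets (A d))

/-- The named subset `D` of `K` is a closed unbounded subset of `K`. -/
def Club (D : K → Set P) : Set P :=
  fand (Unb D) (fall fun b : K => fall fun _ : IsLim b => fimp (Acc D b) (meets (D b)))

/-- The named subset `A` of `K` has order type at most the one of `L`: there is a strictly
increasing relation from `A` to `L`, which is defined on all of `A`. -/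
def OtpLe (L : Type u) [LinearOrder L] (A : K → Set P) : Set P :=
  fex fun R : K → L → Set P =>
    fand (fall fun b : K => fimp (meets (A b)) (fex fun i : L => meets (R b i)))
      (fall fun b : K => fall fun b' : K => fall fun i : L => fall fun i' : L =>
        fall fun _ : b < b' => fimp (fand (meets (R b i)) (meets (R b' i'))) (fground (i < i')))

/-- `C` names a square sequence: for every limit `a`, the set `C a` is a closed unbounded subset
of `a` of order type at most the one of `L`, and `C b = C a ∩ b` for every `b` in `acc (C a)`. -/
def SquareSeq (L : Type u) [LinearOrder L] (C : K → K → Set P) : Set P :=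
  fall fun a : K => fall fun _ : IsLim a =>
    fand (fall fun b : K => fimp (meets (C a b)) (fground (b < a)))
    (fand (fall fun b : K => fall fun _ : b < a =>
        fex fun c : K => fand (fground (b < c)) (meets (C a c)))
    (fand (fall fun b : K => fall fun _ : IsLim b => fall fun _ : b < a =>
        fimp (Acc (C a) b) (meets (C a b)))
    (fand (OtpLe L (C a))
      (fall fun b : K => fimp (fand (meets (C a b)) (Acc (C a) b))
        (fall fun c : K => fand (fimp (meets (C b c)) (fand (meets (C a c)) (fground (c < b))))
          (fimp (fand (meets (C a c)) (fground (c < b))) (meets (C b c))))))))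

/-- `E` names the increasing enumeration of the named set `A`, of order type `θ`: it is the order
isomorphism from the set of all `i < θ` onto `A`. -/
def Enum (θ : L) (A : K → Set P) (E : L → K → Set P) : Set P :=
  fand (fall fun i : L => fall fun _ : i < θ => fex fun x : K => meets (E i x))
  (fand (fall fun i : L => fall fun x : K =>
      fimp (meets (E i x)) (fand (fground (i < θ)) (meets (A x))))
  (fand (fall fun x : K => fimp (meets (A x)) (fex fun i : L => meets (E i x)))
  (fand (fall fun i : L => fall fun x : K => fall fun y : K =>
      fimp (fand (meets (E i x)) (meets (E i y))) (fground (x = y)))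
    (fall fun i : L => fall fun j : L => fall fun x : K => fall fun y : K => fall fun _ : i < j =>
      fimp (fand (meets (E i x)) (meets (E j y))) (fground (x < y))))))

/-- The guessing property of the Ostaszewski square: for all unbounded sets `A i` (`i ∈ L`), every
limit `θ` in `L` and every club `D` there is `a` such that `C a` has order type `θ`, and with
`E i` denoting the `i`-th element of `C a`, for all `i < θ` the point `E (i + 1)` belongs
to `A i` and there is a point of `D` between `E i` and `E (i + 1)`. -/
def Guess (L : Type u) [LinearOrder L] (C : K → K → Set P) : Set P :=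
  fall fun A : L → K → Set P => fall fun D : K → Set P => fall fun θ : L =>
    fall fun _ : IsLim θ =>
      fimp (fand (fall fun i : L => Unb (A i)) (Club D))
        (fex fun a : K => fand (fground (IsLim a)) (fex fun E : L → K → Set P =>
          fand (Enum θ (C a) E)
            (fall fun i : L => fall fun j : L => fall fun _ : i < θ => fall fun _ : i ⋖ j =>
              fall fun x : K => fall fun y : K => fimp (fand (meets (E i x)) (meets (E j y)))
                (fand (meets (A i y))
                  (fex fun b : K => fand (fground (x < b ∧ b < y)) (meets (D b)))))))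

/-- The Ostaszewski square. -/
def OSquare (P : Type u) [Preorder P] (K L : Type u) [LinearOrder K] [LinearOrder L] : Set P :=
  fex fun C : K → K → Set P => fand (SquareSeq L C) (Guess L C)

/-- There is a map from `X` onto the power set of `Y`. -/
def PowLe (P : Type u) [Preorder P] (X Y : Type u) : Set P :=
  fex fun E : X → Y → Set P => fall fun x : Y → Set P => fex fun k : X => fall fun i : Y =>
    fand (fimp (meets (x i)) (meets (E k i))) (fimp (meets (E k i)) (meets (x i)))

/-- `κ` is a regular cardinal in the extension: every function from a smaller cardinal to `κ` is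
bounded. -/
def StaysRegular (P : Type u) [Preorder P] (κ : Cardinal.{u}) : Set P :=
  fall fun ν : Cardinal.{u} => fall fun _ : ν < κ => fall fun R : ν.out → κ.ord.ToType → Set P =>
    fimp (IsFun R) (fex fun b : κ.ord.ToType => fall fun x => fall fun y =>
      fimp (meets (R x y)) (fground (y < b)))

end

/-! ### General facts -/

section

variable {P : Type u} [Preorder P]

/-- The statement `φ` is forced as soon as it is forced by densely many stronger conditions. -/
def Reg (φ : Set P) : Prop := ∀ p, (∀ q ≤ p, ∃ r ≤ q, r ∈ φ) → p ∈ φ

theorem reg_fnot {φ : Set P} (h : Down φ) : Reg (fnot φ) := by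
  intro p hp q hq hq'
  obtain ⟨r, hr, h1⟩ := hp q hq
  exact h1 r le_rfl (h _ hq' _ hr)

theorem reg_fand {φ ψ : Set P} (h : Reg φ) (h' : Reg ψ) : Reg (fand φ ψ) := fun p hp =>
  ⟨h p fun q hq => (hp q hq).imp fun _ h => ⟨h.1, h.2.1⟩,
    h' p fun q hq => (hp q hq).imp fun _ h => ⟨h.1, h.2.2⟩⟩

theorem reg_fall {ι : Sort*} {φ : ι → Set P} (h : ∀ i, Reg (φ i)) : Reg (fall φ) := fun p hp i =>
  h i p fun q hq => (hp q hq).imp fun _ h => ⟨h.1, h.2 i⟩

theorem reg_fex {ι : Sort*} (φ : ι → Set P) : Reg (fex φ) :=
  reg_fnot (down_fall fun _ => down_fnot _)

theorem reg_fimp {φ ψ : Set P} (h : Down φ) : Reg (fimp φ ψ) :=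
  reg_fnot (down_fand h (down_fnot _))

theorem reg_meets (A : Set P) : Reg (meets A) := by
  intro p hp q hq
  obtain ⟨r, hr, h⟩ := hp q hq
  obtain ⟨r', hr', s, hs, h'⟩ := h r le_rfl
  exact ⟨r', hr'.trans hr, s, hs, h'⟩

theorem reg_fground (h : Prop) : Reg (fground (P := P) h) := by
  intro p hp
  obtain ⟨_, _, h'⟩ := hp p le_rfl
  exact h'

/-- A sufficient condition for an implication to be forced. -/
theorem fimp_of {φ ψ : Set P} {p : P} (h : ∀ q ≤ p, q ∈ φ → q ∈ ψ) : p ∈ fimp φ ψ :=
  mem_fimp.2 fun q hq h' => ⟨q, le_rfl, h q hq h'⟩

/-- Modus ponens, for regular conclusions. -/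
theorem mp_of {φ ψ : Set P} {p : P} (h : p ∈ fimp φ ψ) (h' : p ∈ φ) (hd : Down φ) (hr : Reg ψ) :
    p ∈ ψ :=
  hr p fun q hq => mem_fimp.1 h q hq (hd _ h' _ hq)

variable {K L : Type u} [LinearOrder K] [LinearOrder L]

theorem down_Unb (A : K → Set P) : Down (Unb A) := down_fall fun _ => down_fex _

theorem down_Acc (A : K → Set P) (b : K) : Down (Acc A b) :=
  down_fall fun _ => down_fall fun _ => down_fex _

theorem down_Club (D : K → Set P) : Down (Club D) :=
  down_fand (down_Unb D) (down_fall fun _ => down_fall fun _ => down_fimp _ _)

theorem down_SquareSeq (C : K → K → Set P) : Down (SquareSeq L C) :=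
  down_fall fun _ => down_fall fun _ => down_fand (down_fall fun _ => down_fimp _ _)
    (down_fand (down_fall fun _ => down_fall fun _ => down_fex _)
      (down_fand (down_fall fun _ => down_fall fun _ => down_fall fun _ => down_fimp _ _)
        (down_fand (down_fex _) (down_fall fun _ => down_fimp _ _))))

theorem down_Enum (θ : L) (A : K → Set P) (E : L → K → Set P) : Down (Enum θ A E) :=
  down_fand (down_fall fun _ => down_fall fun _ => down_fex _)
    (down_fand (down_fall fun _ => down_fall fun _ => down_fimp _ _)
      (down_fand (down_fall fun _ => down_fimp _ _)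
        (down_fand (down_fall fun _ => down_fall fun _ => down_fall fun _ => down_fimp _ _)
          (down_fall fun _ => down_fall fun _ => down_fall fun _ => down_fall fun _ =>
            down_fall fun _ => down_fimp _ _))))

theorem down_Guess (C : K → K → Set P) : Down (Guess L C) :=
  down_fall fun _ => down_fall fun _ => down_fall fun _ => down_fall fun _ => down_fimp _ _

end

end Pool.Agent.V11248.OS
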