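import Pool.Agent.V11248.Sq.Basic

/-!
# The conditions of the square forcing, and limits of runs
-/

namespace Pool.Agent.V11248.Sq

open Cardinal Set

universe u v w

section

variable {lam : Cardinal.{u}} {K L N : Type u} [LinearOrder K] [LinearOrder L]
  [WellFoundedLT K] [WellFoundedLT L]

theorem exists_sq (S : Setup lam K L) (b : K) : ∃ C : K → Set K, SqTo L C b := by
  classical
  induction b using (wellFounded_lt (α := K)).induction with
  | _ b ih =>
    by_cases hb : IsLim b
    · obtain ⟨D, hD1, hD2, hD3, g, hg⟩ := exists_club S hb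
      choose F hF using fun (x : K) (hx : x < b) => ih x hx
      have hnx : ∀ a, ∃ x, a < b → (x ∈ D ∧ a ≤ x) ∧ ∀ y < x, ¬ (y ∈ D ∧ a ≤ y) := by
        intro a
        by_cases ha : a < b
        · obtain ⟨y, hy, hay⟩ := hD2 a ha
          obtain ⟨x, hx, hx'⟩ := exists_least (p := fun x => x ∈ D ∧ a ≤ x) ⟨y, hy, hay.le⟩
          exact ⟨x, fun _ => ⟨hx, hx'⟩⟩
        · exact ⟨a, fun h => absurd h ha⟩
      choose nx hnx' using hnx
      let acc : K → Prop := fun a => ∀ c < a, ∃ d ∈ D, c < d ∧ d < a
      let G : K → K → Set K := fun x a => if h : x < b then F x h a else ∅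
      let C : K → Set K := fun a => if IsLim a ∧ a ≤ b then
        (if acc a then D ∩ Iio a else {y | y ∈ G (nx a) a ∧ ∀ d ∈ D, d < a → d < y}) else ∅
      have hCacc : ∀ a, IsLim a → a ≤ b → acc a → C a = D ∩ Iio a := by
        intro a h1 h2 h3
        simp only [C]
        rw [if_pos ⟨h1, h2⟩, if_pos h3]
      have hCn : ∀ a, IsLim a → a ≤ b → ¬ acc a →
          C a = {y | y ∈ G (nx a) a ∧ ∀ d ∈ D, d < a → d < y} := by
        intro a h1 h2 h3
        simp only [C]
        rw [if_pos ⟨h1, h2⟩, if_neg h3]
      refine ⟨C, fun a hab ha => ?_, fun a ha => ?_⟩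
      · by_cases hacc : acc a
        · have hCa := hCacc a ha hab hacc
          refine ⟨?_, ?_, ?_, ?_, ?_⟩
          · intro x hx
            rw [hCa] at hx
            exact hx.2
          · intro x hx
            obtain ⟨d, hd, h1, h2⟩ := hacc x hx
            exact ⟨d, by rw [hCa]; exact ⟨hd, h2⟩, h1⟩
          · intro x hx hlim h
            rw [hCa]
            refine ⟨hD3 x (hx.trans_le hab) hlim fun y hy => ?_, hx⟩
            obtain ⟨d, hd, h1, h2⟩ := h y hy
            rw [hCa] at hd
            exact ⟨d, hd.1, h1, h2⟩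
          · exact ⟨g, hg.mono (by rw [hCa]; exact inter_subset_left)⟩
          · intro x hx hlim h
            rw [hCa] at hx
            have hax : acc x := by
              intro y hy
              obtain ⟨d, hd, h1, h2⟩ := h y hy
              rw [hCa] at hd
              exact ⟨d, hd.1, h1, h2⟩
            rw [hCacc x hlim (hx.2.le.trans hab) hax, hCa]
            ext y
            constructor
            · rintro ⟨h1, h2⟩
              exact ⟨⟨h1, lt_trans (show y < x from h2) hx.2⟩, h2⟩
            · rintro ⟨⟨h1, _⟩, h2⟩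
              exact ⟨h1, h2⟩
        · have hab' : a < b := by
            refine lt_of_le_of_ne hab fun h => hacc ?_
            subst h
            intro c hc
            obtain ⟨d, hd, h1⟩ := hD2 c hc
            exact ⟨d, hd, h1, hD1 d hd⟩
          have hCa := hCn a ha hab hacc
          obtain ⟨⟨hn1, hn2⟩, hn3⟩ := hnx' a hab'
          have hnb : nx a < b := hD1 _ hn1
          have hG : ∀ y, G (nx a) y = F (nx a) hnb y := by
            intro y
            simp only [G]
            rw [dif_pos hnb]
          have hB : SqAt L (F (nx a) hnb) a := (hF (nx a) hnb).1 a hn2 ha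
          obtain ⟨c0, hc0, hc0'⟩ : ∃ c0 < a, ∀ d ∈ D, d < a → d ≤ c0 := by
            simp only [acc] at hacc
            push Not at hacc
            obtain ⟨c0, hc0, h⟩ := hacc
            refine ⟨c0, hc0, fun d hd hda => ?_⟩
            by_contra h'
            exact absurd hda (not_lt.2 (h d hd (not_le.1 h')))
          refine ⟨?_, ?_, ?_, ?_, ?_⟩
          · intro x hx
            rw [hCa] at hx
            obtain ⟨h1, _⟩ := hx
            rw [hG] at h1
            exact hB.sub x h1
          · intro x hx
            obtain ⟨y, hy, hxy⟩ := hB.unb (max x c0) (max_lt hx hc0)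
            refine ⟨y, ?_, lt_of_le_of_lt (le_max_left _ _) hxy⟩
            rw [hCa]
            refine ⟨by rw [hG]; exact hy, fun d hd hda => ?_⟩
            exact (hc0' d hd hda).trans_lt (lt_of_le_of_lt (le_max_right _ _) hxy)
          · intro x hx hlim h
            rw [hCa]
            constructor
            · rw [hG]
              refine hB.cl x hx hlim fun c hc => ?_
              obtain ⟨d, hd, h1⟩ := h c hc
              rw [hCa] at hd
              obtain ⟨h2, _⟩ := hd
              rw [hG] at h2
              exact ⟨d, h2, h1⟩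
            · intro d hd hda
              obtain ⟨c, hc⟩ := hlim.1
              obtain ⟨z, hz, h1⟩ := h c hc
              rw [hCa] at hz
              exact (hz.2 d hd hda).trans h1.2
          · obtain ⟨g', hg'⟩ := hB.otp
            refine ⟨g', hg'.mono ?_⟩
            intro x hx
            rw [hCa] at hx
            obtain ⟨h1, _⟩ := hx
            rw [hG] at h1
            exact h1
          · intro x hx hlim h
            obtain ⟨c, hc⟩ := hlim.1
            obtain ⟨z, hz, _, hzx⟩ := h c hc
            have hxa : x < a := by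
              rw [hCa] at hx
              obtain ⟨h1, _⟩ := hx
              rw [hG] at h1
              exact hB.sub x h1
            have hz' := hz
            rw [hCa] at hz'
            have hDz : ∀ d ∈ D, d < a → d < z := hz'.2
            have hnacc : ¬ acc x := by
              intro h'
              obtain ⟨d, hd, h1, h2⟩ := h' z hzx
              exact absurd h1 (not_lt.2 (hDz d hd (h2.trans hxa)).le)
            have hnxx : nx x = nx a := by
              obtain ⟨⟨hm1, hm2⟩, hm3⟩ := hnx' x (hxa.trans hab')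
              have h1 : a ≤ nx x := by
                by_contra h'
                exact absurd (hDz _ hm1 (not_le.1 h')) (not_lt.2 (hzx.le.trans hm2))
              apply le_antisymm
              · by_contra h'
                exact hm3 _ (not_le.1 h') ⟨hn1, hxa.le.trans hn2⟩
              · by_contra h'
                exact hn3 _ (not_le.1 h') ⟨hm1, h1⟩
            rw [hCn x hlim (hxa.le.trans hab) hnacc, hCa, hnxx]
            have hxB : x ∈ F (nx a) hnb a := by
              rw [hCa] at hx
              obtain ⟨h1, _⟩ := hx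
              rw [hG] at h1
              exact h1
            have hco : F (nx a) hnb x = F (nx a) hnb a ∩ Iio x := by
              refine hB.coh x hxB hlim fun c hc => ?_
              obtain ⟨d, hd, h1⟩ := h c hc
              rw [hCa] at hd
              obtain ⟨h2, _⟩ := hd
              rw [hG] at h2
              exact ⟨d, h2, h1⟩
            ext y
            constructor
            · rintro ⟨h1, h2⟩
              rw [hG, hco] at h1
              refine ⟨⟨by rw [hG]; exact h1.1, fun d hd hda => h2 d hd ?_⟩, h1.2⟩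
              exact (hDz d hd hda).trans hzx
            · rintro ⟨⟨h1, h2⟩, h3⟩
              rw [hG] at h1
              refine ⟨by rw [hG, hco]; exact ⟨h1, h3⟩, fun d hd hdx => h2 d hd (hdx.trans hxa)⟩
      · simp only [C]
        rw [if_neg fun h => ha h.1]
    · by_cases hm : ∃ x, x < b
      · have : ∃ x < b, ∀ c, x < c → ¬ c < b := by
          by_contra hcon
          push Not at hcon
          exact hb ⟨hm, fun x hx => by
            obtain ⟨c, h1, h2⟩ := hcon x hx
            exact ⟨c, h1, h2⟩⟩
        obtain ⟨x, hx, hx'⟩ := this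
        obtain ⟨C, hC1, hC2⟩ := ih x hx
        refine ⟨C, fun a hab ha => hC1 a ?_ ha, hC2⟩
        rcases hab.eq_or_lt with h | h
        · subst h
          exact absurd ha hb
        · by_contra h'
          exact hx' a (not_le.1 h') h
      · refine ⟨fun _ => ∅, fun a hab ha => ?_, fun a _ => rfl⟩
        rcases hab.eq_or_lt with h | h
        · subst h
          exact absurd ha hb
        · exact absurd ⟨a, h⟩ hm

end

/-- The conditions of the square forcing: initial segments, of successor length, of square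
sequences on `K`, together with labels in `N`. -/
structure Cond (K L N : Type u) [LinearOrder K] [LinearOrder L] where
  top : K
  C : K → Set K
  nu : K → N
  sq : SqTo L C top

section

variable {lam : Cardinal.{u}} {K L N : Type u} [LinearOrder K] [LinearOrder L]

/-- a condition is stronger if it is longer -/
instance : Preorder (Cond K L N) where
  le q p := p.top ≤ q.top ∧ ∀ a ≤ p.top, q.C a = p.C a ∧ q.nu a = p.nu a
  le_refl p := ⟨le_rfl, fun _ _ => ⟨rfl, rfl⟩⟩
  le_trans r q p h1 h2 := ⟨h2.1.trans h1.1, fun a ha =>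
    ⟨(h1.2 a (ha.trans h2.1)).1.trans (h2.2 a ha).1,
      (h1.2 a (ha.trans h2.1)).2.trans (h2.2 a ha).2⟩⟩

theorem le_def {p q : Cond K L N} :
    q ≤ p ↔ p.top ≤ q.top ∧ ∀ a ≤ p.top, q.C a = p.C a ∧ q.nu a = p.nu a := Iff.rfl

/-- `SqAt` only depends on the values up to `a`. -/
theorem SqAt.congr' {C C' : K → Set K} {a : K} (h : SqAt L C a) (h' : ∀ b ≤ a, C' b = C b) :
    SqAt L C' a := by
  have ha := h' a le_rfl
  refine ⟨?_, ?_, ?_, ?_, ?_⟩
  · rw [ha]; exact h.sub
  · rw [ha]; exact h.unb
  · rw [ha]; exact h.cl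
  · rw [ha]; exact h.otp
  · rw [ha]
    intro b hb h1 h2
    rw [h' b (h.sub b hb).le]
    exact h.coh b hb h1 h2

variable [WellFoundedLT K] [WellFoundedLT L]

/-- Conditions can be made longer, with any labels. -/
theorem exists_ext (S : Setup lam K L) (s : Cond K L N) {b : K} (hb : s.top ≤ b) (nu : K → N) :
    ∃ s' ≤ s, s'.top = b ∧ ∀ a, s.top < a → s'.nu a = nu a := by
  classical
  obtain ⟨F, hF1, hF2⟩ := exists_sq S b
  let C : K → Set K := fun a => if a ≤ s.top then s.C a else
    {y | y ∈ F a ∧ s.top < y}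
  have hC1 : ∀ a ≤ s.top, C a = s.C a := fun a ha => by simp only [C]; rw [if_pos ha]
  have hC2 : ∀ a, s.top < a → C a = {y | y ∈ F a ∧ s.top < y} := fun a ha => by
    simp only [C]; rw [if_neg (not_le.2 ha)]
  refine ⟨⟨b, C, fun a => if a ≤ s.top then s.nu a else nu a, ?_, ?_⟩, ⟨hb, ?_⟩, rfl, ?_⟩
  · intro a hab ha
    by_cases hs : a ≤ s.top
    · exact (s.sq.1 a hs ha).congr' fun x hx => hC1 x (hx.trans hs)
    · have hs' := not_le.1 hs
      have hCa := hC2 a hs'
      have hA := hF1 a hab ha
      refine ⟨?_, ?_, ?_, ?_, ?_⟩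
      · intro x hx
        rw [hCa] at hx
        exact hA.sub x hx.1
      · intro x hx
        obtain ⟨y, hy, hxy⟩ := hA.unb (max x s.top) (max_lt hx hs')
        refine ⟨y, ?_, lt_of_le_of_lt (le_max_left _ _) hxy⟩
        rw [hCa]
        exact ⟨hy, lt_of_le_of_lt (le_max_right _ _) hxy⟩
      · intro x hx hlim h
        rw [hCa]
        constructor
        · refine hA.cl x hx hlim fun c hc => ?_
          obtain ⟨d, hd, h1⟩ := h c hc
          rw [hCa] at hd
          exact ⟨d, hd.1, h1⟩
        · obtain ⟨c, hc⟩ := hlim.1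
          obtain ⟨z, hz, h1⟩ := h c hc
          rw [hCa] at hz
          exact lt_trans hz.2 h1.2
      · obtain ⟨g, hg⟩ := hA.otp
        refine ⟨g, hg.mono ?_⟩
        intro x hx
        rw [hCa] at hx
        exact hx.1
      · intro x hx hlim h
        rw [hCa] at hx
        have hco : F x = F a ∩ Iio x := by
          refine hA.coh x hx.1 hlim fun c hc => ?_
          obtain ⟨d, hd, h1⟩ := h c hc
          rw [hCa] at hd
          exact ⟨d, hd.1, h1⟩
        rw [hC2 x hx.2, hCa, hco]
        ext y
        constructor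
        · rintro ⟨h1, h2⟩
          exact ⟨⟨h1.1, h2⟩, h1.2⟩
        · rintro ⟨⟨h1, h2⟩, h3⟩
          exact ⟨⟨h1, h3⟩, h2⟩
  · intro a ha
    by_cases hs : a ≤ s.top
    · rw [hC1 a hs]
      exact s.sq.2 a ha
    · rw [hC2 a (not_le.1 hs), hF2 a ha]
      ext y
      simp
  · intro a ha
    exact ⟨hC1 a ha, by simp only [if_pos ha]⟩
  · intro a ha
    simp only [if_neg (not_le.2 ha)]

/-- The limit of a run: the new set consists of the points chosen on the way. -/
theorem exists_limit (S : Setup lam K L) {I : Type u} [LinearOrder I] [WellFoundedLT I]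
    [Nonempty I] [NoMaxOrder I] (gI : I → L) (hgI : StrictMono gI) (t : I → Cond K L N)
    (c : I → K) (anti : ∀ i j, i ≤ j → t j ≤ t i) (hcle : ∀ i, c i ≤ (t i).top)
    (hsucc : ∀ i j, i ⋖ j → (t i).top < c j)
    (hlim : ∀ i, IsLim i → c i = (t i).top ∧ (∀ b < (t i).top, ∃ j < i, b < (t j).top) ∧
      (t i).C (t i).top = {x | ∃ j < i, x = c j}) (x : N) :
    ∃ s : Cond K L N, (∀ i, s ≤ t i) ∧ IsLim s.top ∧ (∀ i, (t i).top < s.top) ∧
      (∀ b < s.top, ∃ i, b < (t i).top) ∧ s.C s.top = range c ∧ s.nu s.top = x := by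
  classical
  have : Nonempty L := ⟨gI (Classical.arbitrary I)⟩
  -- the tops are strictly increasing
  have hnext : ∀ i : I, ∃ j, i ⋖ j := fun i => exists_covBy_of_wellFoundedLT (not_isMax i)
  have htop : ∀ i j, i < j → (t i).top < (t j).top := by
    intro i j hij
    obtain ⟨k, hk⟩ := hnext i
    have h1 : k ≤ j := not_lt.1 fun h => hk.2 hij h
    exact (hsucc i k hk).trans_le ((hcle k).trans (anti k j h1).1)
  have hcge : ∀ i j, i < j → (t i).top < c j := by
    intro i j hij
    by_cases h : ∃ k, k ⋖ j
    · obtain ⟨k, hk⟩ := h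
      have h1 : i ≤ k := not_lt.1 fun h' => hk.2 h' hij
      exact lt_of_le_of_lt (anti i k h1).1 (hsucc k j hk)
    · have hl : IsLim j := by
        refine ⟨⟨i, hij⟩, fun b hb => ?_⟩
        by_contra hcon
        push Not at hcon
        exact h ⟨b, hb, fun x hx hx' => absurd hx' (not_lt.2 (hcon x hx))⟩
      rw [(hlim j hl).1]
      exact htop i j hij
  have hcm : StrictMono c := fun i j hij => lt_of_le_of_lt (hcle i) (hcge i j hij)
  have hcard : #I ≤ lam := by
    rw [← S.cardL]
    exact mk_le_of_injective hgI.injective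
  obtain ⟨b0, hb0⟩ := S.bddK (range fun i => (t i).top) (mk_range_le.trans hcard)
  obtain ⟨g, hg, hgmin⟩ := exists_least (p := fun b => ∀ i, (t i).top < b)
    ⟨b0, fun i => hb0 _ ⟨i, rfl⟩⟩
  have hcof : ∀ b < g, ∃ i, b < (t i).top := by
    intro b hb
    have := hgmin b hb
    push Not at this
    obtain ⟨i, hi⟩ := this
    obtain ⟨j, hj⟩ := exists_gt i
    exact ⟨j, hi.trans_lt (htop i j hj)⟩
  have hglim : IsLim g := by
    refine ⟨⟨_, hg (Classical.arbitrary I)⟩, fun b hb => ?_⟩
    obtain ⟨i, hi⟩ := hcof b hb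
    exact ⟨_, hi, hg i⟩
  -- the values below the top
  have hidx : ∀ a, ∃ i, a < g → a ≤ (t i).top := by
    intro a
    by_cases ha : a < g
    · obtain ⟨i, hi⟩ := hcof a ha
      exact ⟨i, fun _ => hi.le⟩
    · exact ⟨Classical.arbitrary I, fun h => absurd h ha⟩
  choose idx hidx' using hidx
  let C : K → Set K := fun a => if a < g then (t (idx a)).C a else if a = g then range c else ∅
  let nu : K → N := fun a => if a < g then (t (idx a)).nu a else x
  have hcomp : ∀ i j a, a ≤ (t i).top → a ≤ (t j).top →
      (t i).C a = (t j).C a ∧ (t i).nu a = (t j).nu a := by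
    intro i j a hi hj
    rcases le_total i j with h | h
    · exact ⟨((anti i j h).2 a hi).1.symm, ((anti i j h).2 a hi).2.symm⟩
    · exact (anti j i h).2 a hj
  have hC1 : ∀ i, ∀ a ≤ (t i).top, C a = (t i).C a ∧ nu a = (t i).nu a := by
    intro i a ha
    have hag : a < g := ha.trans_lt (hg i)
    have := hcomp (idx a) i a (hidx' a hag) ha
    simp only [C, nu]
    rw [if_pos hag, if_pos hag]
    exact this
  have hCg : C g = range c := by
    simp only [C]
    rw [if_neg (lt_irrefl g)]
    simp
  refine ⟨⟨g, C, nu, ?_, ?_⟩, fun i => ⟨(hg i).le, fun a ha => hC1 i a ha⟩, hglim, hg, hcof,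
    hCg, ?_⟩
  · intro a hag ha
    rcases hag.eq_or_lt with h | h
    · subst h
      refine ⟨?_, ?_, ?_, ?_, ?_⟩
      · rw [hCg]
        rintro _ ⟨i, rfl⟩
        exact (hcle i).trans_lt (hg i)
      · rw [hCg]
        intro b hb
        obtain ⟨i, hi⟩ := hcof b hb
        obtain ⟨j, hj⟩ := exists_gt i
        exact ⟨c j, ⟨j, rfl⟩, hi.trans (hcge i j hj)⟩
      · intro b hb hbl hacc
        rw [hCg] at hacc ⊢
        obtain ⟨i0, hi0⟩ := hcof b hb
        obtain ⟨i1, hi1⟩ := exists_gt i0
        obtain ⟨i, hi, himin⟩ := exists_least (p := fun i => b ≤ c i)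
          ⟨i1, (hi0.trans (hcge i0 i1 hi1)).le⟩
        refine ⟨i, ?_⟩
        -- `i` is a limit
        obtain ⟨d0, hd0⟩ := hbl.1
        obtain ⟨_, ⟨j0, rfl⟩, _, hj0⟩ := hacc d0 hd0
        have hj0i : j0 < i := hcm.lt_iff_lt.1 (hj0.trans_le hi)
        have hil : IsLim i := by
          refine ⟨⟨j0, hj0i⟩, fun j hj => ?_⟩
          have hjb : c j < b := not_le.1 (himin j hj)
          obtain ⟨_, ⟨k, rfl⟩, hk1, hk2⟩ := hacc (c j) hjb
          exact ⟨k, hcm.lt_iff_lt.1 hk1, hcm.lt_iff_lt.1 (hk2.trans_le hi)⟩
        obtain ⟨h1, h2, _⟩ := hlim i hil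
        refine le_antisymm ?_ hi
        by_contra h'
        push Not at h'
        rw [h1] at h'
        obtain ⟨j, hj, h3⟩ := h2 b h'
        obtain ⟨k, hk1, hk2⟩ := hil.2 j hj
        exact himin k hk2 (h3.trans (hcge j k hk1)).le
      · rw [hCg]
        refine ⟨fun y => gI (Function.invFun c y), ?_⟩
        rintro _ ⟨i, rfl⟩ _ ⟨j, rfl⟩ hij
        simp only [Function.leftInverse_invFun hcm.injective i,
          Function.leftInverse_invFun hcm.injective j]
        exact hgI (hcm.lt_iff_lt.1 hij)
      · rw [hCg]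
        rintro _ ⟨i, rfl⟩ hbl hacc
        obtain ⟨d0, hd0⟩ := hbl.1
        obtain ⟨_, ⟨j0, rfl⟩, _, hj0⟩ := hacc d0 hd0
        have hil : IsLim i := by
          refine ⟨⟨j0, hcm.lt_iff_lt.1 hj0⟩, fun j hj => ?_⟩
          obtain ⟨_, ⟨k, rfl⟩, hk1, hk2⟩ := hacc (c j) (hcm hj)
          exact ⟨k, hcm.lt_iff_lt.1 hk1, hcm.lt_iff_lt.1 hk2⟩
        obtain ⟨h1, _, h3⟩ := hlim i hil
        rw [(hC1 i (c i) (hcle i)).1, h1, h3]
        ext y
        constructor
        · rintro ⟨j, hj, rfl⟩
          refine ⟨⟨j, rfl⟩, ?_⟩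
          rw [← h1]
          exact hcm hj
        · rintro ⟨⟨j, rfl⟩, hj⟩
          rw [← h1] at hj
          exact ⟨j, hcm.lt_iff_lt.1 hj, rfl⟩
    · obtain ⟨i, hi⟩ := hcof a h
      exact ((t i).sq.1 a hi.le ha).congr' fun y hy => (hC1 i y (hy.trans hi.le)).1
  · intro a ha
    by_cases h : a < g
    · obtain ⟨i, hi⟩ := hcof a h
      rw [(hC1 i a hi.le).1]
      exact (t i).sq.2 a ha
    · simp only [C]
      rw [if_neg h, if_neg]
      rintro rfl
      exact ha hglim
  · simp only [nu]
    rw [if_neg (lt_irrefl g)]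

end

end Pool.Agent.V11248.Sq
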