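import Pool.Agent.V11248.Sq.Cond

/-!
# Runs of conditions of the square forcing, along `L`
-/

namespace Pool.Agent.V11248.Sq

open Cardinal Set

universe u v w

section

variable {lam : Cardinal.{u}} {K L N : Type u} [LinearOrder K] [LinearOrder L]
  [WellFoundedLT K] [WellFoundedLT L]

/-- A run: a decreasing sequence of pairs of conditions along `L`, with points `c`. -/
structure IsRun {Q : Type v} [Preorder Q] (R : L → Cond K L N × Q → Cond K L N × Q → K → Prop)
    (p0 : Cond K L N × Q) (t : L → Cond K L N × Q) (c : L → K) : Prop where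
  le0 : ∀ i, t i ≤ p0
  anti : ∀ i j, i ≤ j → t j ≤ t i
  cle : ∀ i, c i ≤ (t i).1.top
  succ : ∀ i j, i ⋖ j → (t i).1.top < c j ∧ R i (t i) (t j) (c j)
  lim : ∀ i, IsLim i → IsLim (t i).1.top ∧ c i = (t i).1.top ∧
    (∀ b < (t i).1.top, ∃ j < i, b < (t j).1.top) ∧
    (t i).1.C (t i).1.top = {x | ∃ j < i, x = c j}

theorem exists_run (S : Setup lam K L) {Q : Type v} [Preorder Q]
    (hQ : ∀ i : L, IsLim i → ∀ r : L → Q, (∀ j k, j ≤ k → k < i → r k ≤ r j) →
      ∃ q, ∀ j < i, q ≤ r j)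
    (R : L → Cond K L N × Q → Cond K L N × Q → K → Prop)
    (p0 : Cond K L N × Q)
    (hR : ∀ i, ∀ p ≤ p0, ∃ p' ≤ p, ∃ c, p.1.top < c ∧ c ≤ p'.1.top ∧ R i p p' c) :
    ∃ t c, IsRun R p0 t c := by
  classical
  let G : ∀ i : L, (∀ j, j < i → (Cond K L N × Q) × K) → (Cond K L N × Q) × K → Prop :=
    fun i f a => (∀ j (hj : j < i), a.1 ≤ (f j hj).1) ∧ a.1 ≤ p0 ∧ a.2 ≤ a.1.1.top ∧
      (∀ j (hj : j < i), j ⋖ i → (f j hj).1.1.top < a.2 ∧ R j (f j hj).1 a.1 a.2) ∧
      (IsLim i → IsLim a.1.1.top ∧ a.2 = a.1.1.top ∧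
        (∀ b < a.1.1.top, ∃ j, ∃ hj : j < i, b < (f j hj).1.1.top) ∧
        a.1.1.C a.1.1.top = {x | ∃ j, ∃ hj : j < i, x = (f j hj).2})
  haveI : Nonempty ((Cond K L N × Q) × K) := ⟨(p0, p0.1.top)⟩
  obtain ⟨f, hf⟩ := wf_choice G (by
    intro i f hf
    have hanti : ∀ j k, j ≤ k → k < i → (f k).1 ≤ (f j).1 := by
      intro j k hjk hk
      rcases hjk.eq_or_lt with h | h
      · rw [h]
      · exact (hf k hk).1 j h
    by_cases h1 : ∃ j, j ⋖ i
    · obtain ⟨j, hj⟩ := h1
      obtain ⟨p', hp', c, hc1, hc2, hc3⟩ := hR j (f j).1 (hf j hj.1).2.1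
      refine ⟨(p', c), ?_, ?_, hc2, ?_, ?_⟩
      · intro k hk
        have hkj : k ≤ j := not_lt.1 fun h => hj.2 h hk
        exact hp'.trans (hanti k j hkj hj.1)
      · exact hp'.trans (hf j hj.1).2.1
      · intro k hk hki
        have hkj : k = j := by
          apply le_antisymm
          · exact not_lt.1 fun h => hj.2 h hk
          · exact not_lt.1 fun h => hki.2 h hj.1
        subst hkj
        exact ⟨hc1, hc3⟩
      · intro hl
        obtain ⟨c', h2, h3⟩ := hl.2 j hj.1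
        exact absurd h3 (hj.2 h2)
    · by_cases h2 : ∃ j, j < i
      · have hl : IsLim i := by
          refine ⟨h2, fun b hb => ?_⟩
          by_contra hcon
          push Not at hcon
          exact h1 ⟨b, hb, fun x hx hx' => absurd hx' (not_lt.2 (hcon x hx))⟩
        haveI : Nonempty (Iio i) := by
          obtain ⟨j, hj⟩ := h2
          exact ⟨⟨j, hj⟩⟩
        haveI : NoMaxOrder (Iio i) := ⟨fun a => by
          obtain ⟨c, h3, h4⟩ := hl.2 a.1 a.2
          exact ⟨⟨c, h4⟩, h3⟩⟩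
        have hlimsub : ∀ a : Iio i, IsLim a → IsLim (a : L) := by
          intro a ha
          obtain ⟨⟨b, hb⟩, h⟩ := ha
          refine ⟨⟨b.1, hb⟩, fun x hx => ?_⟩
          obtain ⟨y, hy1, hy2⟩ := h ⟨x, lt_trans hx a.2⟩ hx
          exact ⟨y.1, hy1, hy2⟩
        obtain ⟨s, hs1, hs2, hs3, hs4, hs5, _⟩ := exists_limit S (I := Iio i)
          (fun j => (j : L)) (fun _ _ h => h) (fun j => (f j).1.1) (fun j => (f j).2)
          (fun j k hjk => (hanti j.1 k.1 hjk k.2).1) (fun j => (hf j.1 j.2).2.2.1)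
          (by
            intro j k hjk
            have h3 : (j : L) ⋖ (k : L) := by
              refine ⟨hjk.1, fun x hx1 hx2 => ?_⟩
              exact hjk.2 (c := ⟨x, lt_trans hx2 k.2⟩) hx1 hx2
            exact ((hf k.1 k.2).2.2.2.1 j.1 hjk.1 h3).1)
          (by
            intro j hj
            obtain ⟨h3, h4, h5, h6⟩ := (hf j.1 j.2).2.2.2.2 (hlimsub j hj)
            refine ⟨h4, ?_, ?_⟩
            · intro b hb
              obtain ⟨k, hk, hk'⟩ := h5 b hb
              exact ⟨⟨k, lt_trans hk j.2⟩, hk, hk'⟩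
            · rw [h6]
              ext x
              constructor
              · rintro ⟨k, hk, rfl⟩
                exact ⟨⟨k, lt_trans hk j.2⟩, hk, rfl⟩
              · rintro ⟨k, hk, rfl⟩
                exact ⟨k.1, hk, rfl⟩)
          (p0.1.nu p0.1.top)
        obtain ⟨q, hq⟩ := hQ i hl (fun j => (f j).1.2) (fun j k hjk hk => (hanti j k hjk hk).2)
        refine ⟨((s, q), s.top), ?_, ?_, le_rfl, ?_, ?_⟩
        · intro j hj
          exact ⟨hs1 ⟨j, hj⟩, hq j hj⟩
        · obtain ⟨j, hj⟩ := h2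
          exact (show ((s, q) : Cond K L N × Q) ≤ (f j).1 from ⟨hs1 ⟨j, hj⟩, hq j hj⟩).trans
            (hf j hj).2.1
        · intro j _ hji
          exact absurd ⟨j, hji⟩ h1
        · intro _
          refine ⟨hs2, rfl, ?_, ?_⟩
          · intro b hb
            obtain ⟨j, hj⟩ := hs4 b hb
            exact ⟨j.1, j.2, hj⟩
          · change s.C s.top = _
            rw [hs5]
            ext x
            constructor
            · rintro ⟨j, rfl⟩
              exact ⟨j.1, j.2, rfl⟩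
            · rintro ⟨j, hj, rfl⟩
              exact ⟨⟨j, hj⟩, rfl⟩
      · refine ⟨(p0, p0.1.top), ?_, le_rfl, le_rfl, ?_, ?_⟩
        · intro j hj
          exact absurd ⟨j, hj⟩ h2
        · intro j hj
          exact absurd ⟨j, hj⟩ h2
        · intro hl
          exact absurd hl.1 h2)
  refine ⟨fun i => (f i).1, fun i => (f i).2, fun i => (hf i).2.1, ?_, fun i => (hf i).2.2.1,
    ?_, ?_⟩
  · intro i j hij
    rcases hij.eq_or_lt with h | h
    · rw [h]
    · exact (hf j).1 i h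
  · intro i j hij
    exact (hf j).2.2.2.1 i hij.1 hij
  · intro i hi
    obtain ⟨h1, h2, h3, h4⟩ := (hf i).2.2.2.2 hi
    refine ⟨h1, h2, ?_, ?_⟩
    · intro b hb
      obtain ⟨j, hj, h5⟩ := h3 b hb
      exact ⟨j, hj, h5⟩
    · rw [h4]
      ext x
      constructor
      · rintro ⟨j, hj, h5⟩
        exact ⟨j, hj, h5⟩
      · rintro ⟨j, hj, h5⟩
        exact ⟨j, hj, h5⟩

theorem IsRun.top_lt {Q : Type v} [Preorder Q]
    {R : L → Cond K L N × Q → Cond K L N × Q → K → Prop} {p0 : Cond K L N × Q}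
    {t : L → Cond K L N × Q} {c : L → K} (h : IsRun R p0 t c) {i j : L} (hij : i < j) :
    (t i).1.top < (t j).1.top := by
  obtain ⟨k, hk⟩ := exists_covBy_of_wellFoundedLT (a := i) (fun hm => absurd (hm hij.le) (not_le.2 hij))
  have h1 : k ≤ j := not_lt.1 fun h' => hk.2 hij h'
  exact (h.succ i k hk).1.trans_le ((h.cle k).trans (h.anti k j h1).1.1)

theorem IsRun.top_lt_c {Q : Type v} [Preorder Q]
    {R : L → Cond K L N × Q → Cond K L N × Q → K → Prop} {p0 : Cond K L N × Q}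
    {t : L → Cond K L N × Q} {c : L → K} (h : IsRun R p0 t c) {i j : L} (hij : i < j) :
    (t i).1.top < c j := by
  by_cases h1 : ∃ k, k ⋖ j
  · obtain ⟨k, hk⟩ := h1
    have h2 : i ≤ k := not_lt.1 fun h' => hk.2 h' hij
    exact lt_of_le_of_lt (h.anti i k h2).1.1 (h.succ k j hk).1
  · have hl : IsLim j := by
      refine ⟨⟨i, hij⟩, fun b hb => ?_⟩
      by_contra hcon
      push Not at hcon
      exact h1 ⟨b, hb, fun x hx hx' => absurd hx' (not_lt.2 (hcon x hx))⟩
    rw [(h.lim j hl).2.1]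
    exact h.top_lt hij

theorem IsRun.c_mono {Q : Type v} [Preorder Q]
    {R : L → Cond K L N × Q → Cond K L N × Q → K → Prop} {p0 : Cond K L N × Q}
    {t : L → Cond K L N × Q} {c : L → K} (h : IsRun R p0 t c) : StrictMono c :=
  fun i _ hij => lt_of_le_of_lt (h.cle i) (h.top_lt_c hij)

omit [WellFoundedLT K] [WellFoundedLT L] in
theorem Setup.nonemptyL (S : Setup lam K L) : Nonempty L := by
  have h : #L ≠ 0 := by
    rw [S.cardL]
    exact (aleph0_pos.trans S.unc).ne'
  exact mk_ne_zero_iff.1 h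

omit [WellFoundedLT K] [WellFoundedLT L] in
theorem Setup.noMaxL (S : Setup lam K L) : NoMaxOrder L := ⟨fun a => by
  obtain ⟨k, hk⟩ := S.bddL {a} (by
    rw [mk_singleton]
    exact one_lt_aleph0.trans S.unc)
  exact ⟨k, hk a rfl⟩⟩

omit [WellFoundedLT K] [WellFoundedLT L] in
theorem Setup.noMaxK (S : Setup lam K L) : NoMaxOrder K := ⟨fun a => by
  obtain ⟨k, hk⟩ := S.bddK {a} (by
    rw [mk_singleton]
    exact (one_lt_aleph0.trans S.unc).le)
  exact ⟨k, hk a rfl⟩⟩

/-- The limit of a whole run. -/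
theorem IsRun.exists_top (S : Setup lam K L) {Q : Type v} [Preorder Q]
    {R : L → Cond K L N × Q → Cond K L N × Q → K → Prop} {p0 : Cond K L N × Q}
    {t : L → Cond K L N × Q} {c : L → K} (h : IsRun R p0 t c) :
    ∃ s : Cond K L N, ∀ i, s ≤ (t i).1 := by
  haveI := S.nonemptyL
  haveI := S.noMaxL
  obtain ⟨s, hs, _⟩ := exists_limit S (I := L) id (fun _ _ h => h) (fun i => (t i).1) c
    (fun i j hij => (h.anti i j hij).1) h.cle (fun i j hij => (h.succ i j hij).1)
    (fun i hi => (h.lim i hi).2) (p0.1.nu p0.1.top)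
  exact ⟨s, hs⟩

theorem exists_surj {α β : Type u} [Nonempty β] (h : #β ≤ #α) :
    ∃ e : α → β, Function.Surjective e := by
  obtain ⟨i⟩ := h
  exact ⟨Function.invFun i, Function.invFun_surjective i.injective⟩

/-- `Cond` is distributive: fewer than `λ⁺` many dense open sets have a common member. -/
theorem exists_mem_all (S : Setup lam K L) (s0 : Cond K L N) {J : Type u} (hJ : #J ≤ lam)
    (D : J → Set (Cond K L N)) (hopen : ∀ j, ∀ s ∈ D j, ∀ s' ≤ s, s' ∈ D j)
    (hdense : ∀ j, ∀ s ≤ s0, ∃ s' ≤ s, s' ∈ D j) : ∃ s ≤ s0, ∀ j, s ∈ D j := by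
  classical
  rcases isEmpty_or_nonempty J with hE | hE
  · exact ⟨s0, le_rfl, fun j => (hE.false j).elim⟩
  obtain ⟨e, he⟩ := exists_surj (α := L) (β := J) (by rw [S.cardL]; exact hJ)
  haveI := S.noMaxK
  haveI := S.noMaxL
  haveI := S.nonemptyL
  obtain ⟨t, c, hr⟩ := exists_run S (Q := PUnit.{1}) (fun i _ r _ => ⟨PUnit.unit, fun _ _ => trivial⟩)
    (fun i _ p' _ => p'.1 ∈ D (e i)) (s0, PUnit.unit) (by
      intro i p hp
      obtain ⟨s', hs', h1⟩ := hdense (e i) p.1 hp.1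
      obtain ⟨b, hb⟩ := exists_gt s'.top
      obtain ⟨s'', hs'', hb', _⟩ := exists_ext S s' hb.le s'.nu
      refine ⟨(s'', p.2), ⟨hs''.trans hs', le_rfl⟩, b, hs'.1.trans_lt hb, hb'.ge, ?_⟩
      exact hopen _ _ h1 _ hs'')
  obtain ⟨s, hs⟩ := hr.exists_top S
  refine ⟨s, (hs (Classical.arbitrary L)).trans (hr.le0 _).1, fun j => ?_⟩
  obtain ⟨i, rfl⟩ := he j
  obtain ⟨k, hk⟩ := exists_covBy_of_wellFoundedLT (a := i) (not_isMax i)
  exact hopen _ _ (hr.succ i k hk).2 _ (hs k)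

end

end Pool.Agent.V11248.Sq
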