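import Pool.Agent.V11248.Sq.Game

/-!
# Runs whose steps depend on the history, and mixing
-/

namespace Pool.Agent.V11248.Sq

open Cardinal Set

universe u v w

section

variable {lam : Cardinal.{u}} {K L N : Type u} [LinearOrder K] [LinearOrder L]
  [WellFoundedLT K] [WellFoundedLT L]

theorem exists_runH (S : Setup lam K L) {Q : Type v} [Preorder Q]
    (hQ : ∀ i : L, IsLim i → ∀ r : L → Q, (∀ j k, j ≤ k → k < i → r k ≤ r j) →
      ∃ q, ∀ j < i, q ≤ r j)
    (p0 : Cond K L N × Q)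
    (R : ∀ i : L, (∀ k, k ≤ i → Cond K L N × Q) → Cond K L N × Q → K → Prop)
    (hR : ∀ (i : L) (h : ∀ k, k ≤ i → Cond K L N × Q), (∀ k hk, h k hk ≤ p0) →
      (∀ j k (hjk : j ≤ k) (hk : k ≤ i), h k hk ≤ h j (hjk.trans hk)) →
      ∃ p' ≤ h i le_rfl, ∃ c, (h i le_rfl).1.top < c ∧ c ≤ p'.1.top ∧ R i h p' c) :
    ∃ t c, IsRun (fun i _ p' c' => R i (fun k _ => t k) p' c') p0 t c := by
  classical
  let G : ∀ i : L, (∀ j, j < i → (Cond K L N × Q) × K) → (Cond K L N × Q) × K → Prop :=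
    fun i f a => (∀ j (hj : j < i), a.1 ≤ (f j hj).1) ∧ a.1 ≤ p0 ∧ a.2 ≤ a.1.1.top ∧
      (∀ j (hj : j < i), j ⋖ i → (f j hj).1.1.top < a.2 ∧
        R j (fun k hk => (f k (lt_of_le_of_lt hk hj)).1) a.1 a.2) ∧
      (IsLim i → IsLim a.1.1.top ∧ a.2 = a.1.1.top ∧
        (∀ b < a.1.1.top, ∃ j, ∃ hj : j < i, b < (f j hj).1.1.top) ∧
        a.1.1.C a.1.1.top = {x | ∃ j, ∃ hj : j < i, x = (f j hj).2})
  have : Nonempty ((Cond K L N × Q) × K) := ⟨(p0, p0.1.top)⟩
  obtain ⟨f, hf⟩ := wf_choice G (by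
    intro i f hf
    have hanti : ∀ j k, j ≤ k → k < i → (f k).1 ≤ (f j).1 := by
      intro j k hjk hk
      rcases hjk.eq_or_lt with h | h
      · rw [h]
      · exact (hf k hk).1 j h
    by_cases h1 : ∃ j, j ⋖ i
    · obtain ⟨j, hj⟩ := h1
      obtain ⟨p', hp', c, hc1, hc2, hc3⟩ := hR j (fun k _ => (f k).1)
        (fun k hk => (hf k (lt_of_le_of_lt hk hj.1)).2.1)
        (fun k l hkl hl => hanti k l hkl (lt_of_le_of_lt hl hj.1))
      refine ⟨(p', c), ?_, ?_, hc2, ?_, ?_⟩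
      · intro k hk
        have hkj : k ≤ j := not_lt.1 fun h => hj.2 h hk
        exact hp'.trans (hanti k j hkj hj.1)
      · exact hp'.trans (hf j hj.1).2.1
      · intro k hk hki
        have hkj : k = j := by
          apply le_antisymm
          · exact not_lt.1 fun h => hj.2 h hk
          · exact not_lt.1 fun h => hki.2 h hj.1
        subst hkj
        exact ⟨hc1, hc3⟩
      · intro hl
        obtain ⟨c', h2, h3⟩ := hl.2 j hj.1
        exact absurd h3 (hj.2 h2)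
    · by_cases h2 : ∃ j, j < i
      · have hl : IsLim i := by
          refine ⟨h2, fun b hb => ?_⟩
          by_contra hcon
          push Not at hcon
          exact h1 ⟨b, hb, fun x hx hx' => absurd hx' (not_lt.2 (hcon x hx))⟩
        have : Nonempty (Iio i) := by
          obtain ⟨j, hj⟩ := h2
          exact ⟨⟨j, hj⟩⟩
        have : NoMaxOrder (Iio i) := ⟨fun a => by
          obtain ⟨c, h3, h4⟩ := hl.2 a.1 a.2
          exact ⟨⟨c, h4⟩, h3⟩⟩
        have hlimsub : ∀ a : Iio i, IsLim a → IsLim (a : L) := by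
          intro a ha
          obtain ⟨⟨b, hb⟩, h⟩ := ha
          refine ⟨⟨b.1, hb⟩, fun x hx => ?_⟩
          obtain ⟨y, hy1, hy2⟩ := h ⟨x, lt_trans hx a.2⟩ hx
          exact ⟨y.1, hy1, hy2⟩
        obtain ⟨s, hs1, hs2, hs3, hs4, hs5, _⟩ := exists_limit S (I := Iio i)
          (fun j => (j : L)) (fun _ _ h => h) (fun j => (f j).1.1) (fun j => (f j).2)
          (fun j k hjk => (hanti j.1 k.1 hjk k.2).1) (fun j => (hf j.1 j.2).2.2.1)
          (by
            intro j k hjk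
            have h3 : (j : L) ⋖ (k : L) := by
              refine ⟨hjk.1, fun x hx1 hx2 => ?_⟩
              exact hjk.2 (c := ⟨x, lt_trans hx2 k.2⟩) hx1 hx2
            exact ((hf k.1 k.2).2.2.2.1 j.1 hjk.1 h3).1)
          (by
            intro j hj
            obtain ⟨h3, h4, h5, h6⟩ := (hf j.1 j.2).2.2.2.2 (hlimsub j hj)
            refine ⟨h4, ?_, ?_⟩
            · intro b hb
              obtain ⟨k, hk, hk'⟩ := h5 b hb
              exact ⟨⟨k, lt_trans hk j.2⟩, hk, hk'⟩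
            · rw [h6]
              ext x
              constructor
              · rintro ⟨k, hk, rfl⟩
                exact ⟨⟨k, lt_trans hk j.2⟩, hk, rfl⟩
              · rintro ⟨k, hk, rfl⟩
                exact ⟨k.1, hk, rfl⟩)
          (p0.1.nu p0.1.top)
        obtain ⟨q, hq⟩ := hQ i hl (fun j => (f j).1.2) (fun j k hjk hk => (hanti j k hjk hk).2)
        refine ⟨((s, q), s.top), ?_, ?_, le_rfl, ?_, ?_⟩
        · intro j hj
          exact ⟨hs1 ⟨j, hj⟩, hq j hj⟩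
        · obtain ⟨j, hj⟩ := h2
          exact (show ((s, q) : Cond K L N × Q) ≤ (f j).1 from ⟨hs1 ⟨j, hj⟩, hq j hj⟩).trans
            (hf j hj).2.1
        · intro j _ hji
          exact absurd ⟨j, hji⟩ h1
        · intro _
          refine ⟨hs2, rfl, ?_, ?_⟩
          · intro b hb
            obtain ⟨j, hj⟩ := hs4 b hb
            exact ⟨j.1, j.2, hj⟩
          · change s.C s.top = _
            rw [hs5]
            ext x
            constructor
            · rintro ⟨j, rfl⟩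
              exact ⟨j.1, j.2, rfl⟩
            · rintro ⟨j, hj, rfl⟩
              exact ⟨⟨j, hj⟩, rfl⟩
      · refine ⟨(p0, p0.1.top), ?_, le_rfl, le_rfl, ?_, ?_⟩
        · intro j hj
          exact absurd ⟨j, hj⟩ h2
        · intro j hj
          exact absurd ⟨j, hj⟩ h2
        · intro hl
          exact absurd hl.1 h2)
  refine ⟨fun i => (f i).1, fun i => (f i).2, fun i => (hf i).2.1, ?_, fun i => (hf i).2.2.1,
    ?_, ?_⟩
  · intro i j hij
    rcases hij.eq_or_lt with h | h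
    · rw [h]
    · exact (hf j).1 i h
  · intro i j hij
    exact (hf j).2.2.2.1 i hij.1 hij
  · intro i hi
    obtain ⟨h1, h2, h3, h4⟩ := (hf i).2.2.2.2 hi
    refine ⟨h1, h2, ?_, ?_⟩
    · intro b hb
      obtain ⟨j, hj, h5⟩ := h3 b hb
      exact ⟨j, hj, h5⟩
    · rw [h4]
      ext x
      constructor
      · rintro ⟨j, hj, h5⟩
        exact ⟨j, hj, h5⟩
      · rintro ⟨j, hj, h5⟩
        exact ⟨j, hj, h5⟩

/-- Two conditions are incompatible. -/
def Inc {Q : Type w} [Preorder Q] (p q : Q) : Prop := ∀ r, r ≤ p → ¬ r ≤ q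

/-- A set with the indiscrete preorder. -/
structure Ind (A : Type v) where
  val : A

instance {A : Type v} : Preorder (Ind A) where
  le _ _ := True
  le_refl _ := trivial
  le_trans _ _ _ _ _ := trivial

/-- Mixing: if all antichains of `Q` have size less than `λ` then densely many statements can be
decided by one condition of the square forcing and a maximal antichain of `Q`. -/
theorem exists_mix (S : Setup lam K L) {Q V : Type u} [Preorder Q]
    (hcc : ∀ q : L → Q, ¬ ∀ i j, i ≠ j → Inc (q i) (q j))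
    (Ψ : Cond K L N → Q → V → Prop)
    (hdown : ∀ s q v, Ψ s q v → ∀ s' ≤ s, ∀ q' ≤ q, Ψ s' q' v)
    (s0 : Cond K L N) (hdense : ∀ s ≤ s0, ∀ q, ∃ s' ≤ s, ∃ q' ≤ q, ∃ v, Ψ s' q' v) :
    ∃ s ≤ s0, ∃ W : Set (Q × V), #W < lam ∧ (∀ x ∈ W, Ψ s x.1 x.2) ∧
      (∀ x ∈ W, ∀ y ∈ W, x ≠ y → Inc x.1 y.1) ∧ ∀ q, ∃ x ∈ W, ¬ Inc q x.1 := by
  classical
  have := S.noMaxK
  have := S.noMaxL
  have := S.nonemptyL
  let St : Type u := Cond K L N × Ind (Option (Q × V))
  let prev : ∀ i : L, (∀ k, k ≤ i → Cond K L N × Ind (Option (Q × V))) → Set (Q × V) :=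
    fun i h => {x | ∃ j k, ∃ hk : k ≤ i, j ⋖ k ∧ (h k hk).2.val = some x}
  obtain ⟨t, c, hr⟩ := exists_runH S (Q := Ind (Option (Q × V)))
    (fun i _ r _ => ⟨⟨none⟩, fun _ _ => trivial⟩) (s0, ⟨none⟩)
    (fun i h p' _ => (∃ q, ∀ x ∈ prev i h, Inc q x.1) →
      ∃ x, p'.2.val = some x ∧ Ψ p'.1 x.1 x.2 ∧ ∀ y ∈ prev i h, Inc x.1 y.1)
    (by
      intro i h h0 _
      obtain ⟨b, hb⟩ := exists_gt (h i le_rfl).1.top
      by_cases hq : ∃ q, ∀ x ∈ prev i h, Inc q x.1
      · obtain ⟨q, hq⟩ := hq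
        obtain ⟨s', hs', q', hq', v, hv⟩ := hdense (h i le_rfl).1 (h0 i le_rfl).1 q
        obtain ⟨b, hb⟩ := exists_gt s'.top
        obtain ⟨s'', hs'', hb', _⟩ := exists_ext S s' hb.le s'.nu
        refine ⟨(s'', ⟨some (q', v)⟩), ⟨hs''.trans hs', trivial⟩, b, hs'.1.trans_lt hb, hb'.ge,
          fun _ => ⟨(q', v), rfl, hdown _ _ _ hv _ hs'' _ le_rfl, fun y hy r hr => ?_⟩⟩
        exact hq y hy r (hr.trans hq')
      · obtain ⟨s'', hs'', hb', _⟩ := exists_ext S (h i le_rfl).1 hb.le (h i le_rfl).1.nu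
        exact ⟨(s'', (h i le_rfl).2), ⟨hs'', trivial⟩, b, hb, hb'.ge, fun h' => absurd h' hq⟩)
  -- some stage is maximal
  have hmax : ∃ i, ∀ q, ∃ x ∈ prev i (fun k _ => t k), ¬ Inc q x.1 := by
    by_contra hcon
    push Not at hcon
    have hnext : ∀ i : L, ∃ j, i ⋖ j := fun i => exists_covBy_of_wellFoundedLT (not_isMax i)
    choose nx hnx using hnext
    have h1 : ∀ i, ∃ x, (t (nx i)).2.val = some x ∧ Ψ (t (nx i)).1 x.1 x.2 ∧
        ∀ y ∈ prev i (fun k _ => t k), Inc x.1 y.1 := fun i => (hr.succ i (nx i) (hnx i)).2 (hcon i)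
    choose x hx1 _ hx3 using h1
    refine hcc (fun i => (x i).1) fun i j hij => ?_
    rcases lt_or_gt_of_ne hij with h | h
    · have h2 : x i ∈ prev j (fun k _ => t k) :=
        ⟨i, nx i, not_lt.1 fun h' => (hnx i).2 h h', hnx i, hx1 i⟩
      exact fun r hr1 hr2 => hx3 j _ h2 r hr2 hr1
    · have h2 : x j ∈ prev i (fun k _ => t k) :=
        ⟨j, nx j, not_lt.1 fun h' => (hnx j).2 h h', hnx j, hx1 j⟩
      exact hx3 i _ h2
  -- take the least one
  obtain ⟨i, hi, hmin⟩ := exists_least hmax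
  have hpre : ∀ j < i, ∃ q, ∀ x ∈ prev j (fun k _ => t k), Inc q x.1 := by
    intro j hj
    have := hmin j hj
    push Not at this
    exact this
  have hprop : ∀ x ∈ prev i (fun k _ => t k), ∃ j k, j ⋖ k ∧ k ≤ i ∧ (t k).2.val = some x ∧
      Ψ (t k).1 x.1 x.2 ∧ ∀ y ∈ prev j (fun k _ => t k), Inc x.1 y.1 := by
    rintro x ⟨j, k, hk, hjk, hx⟩
    obtain ⟨y, h1, h2, h3⟩ := (hr.succ j k hjk).2 (hpre j (hjk.1.trans_le hk))
    have : y = x := by
      rw [hx] at h1
      simpa using h1.symm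
    subst this
    exact ⟨j, k, hjk, hk, hx, h2, h3⟩
  refine ⟨(t i).1, (hr.le0 i).1, prev i (fun k _ => t k), ?_, ?_, ?_, hi⟩
  · have h1 : ∀ x : prev i (fun k _ => t k), ∃ k : Iic i, (t k.1).2.val = some x.1 := by
      rintro ⟨x, j, k, hk, _, hx⟩
      exact ⟨⟨k, hk⟩, hx⟩
    choose g hg using h1
    have h2 : #(prev i (fun k _ => t k)) ≤ #(Iic i) := mk_le_of_injective (f := g) fun x y hxy => by
      have h3 := hg x
      rw [hxy, hg y] at h3
      exact Subtype.ext (by simpa using h3.symm)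
    refine h2.trans_lt ?_
    obtain ⟨b, hb⟩ := exists_gt i
    exact (mk_le_mk_of_subset fun x hx => lt_of_le_of_lt hx hb).trans_lt (S.smallL b)
  · intro x hx
    obtain ⟨j, k, _, hk, _, h2, _⟩ := hprop x hx
    exact hdown _ _ _ h2 _ (hr.anti k i hk).1 _ le_rfl
  · intro x hx y hy hxy
    obtain ⟨j, k, hjk, hk, hx1, hx2, hx3⟩ := hprop x hx
    obtain ⟨j', k', hjk', hk', hy1, hy2, hy3⟩ := hprop y hy
    rcases lt_trichotomy k k' with h | h | h
    · have h1 : x ∈ prev j' (fun k _ => t k) := ⟨j, k, not_lt.1 fun h' => hjk'.2 h' h, hjk, hx1⟩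
      exact fun r hr1 hr2 => hy3 x h1 r hr2 hr1
    · subst h
      rw [hx1] at hy1
      exact absurd (by simpa using hy1) hxy
    · have h1 : y ∈ prev j (fun k _ => t k) := ⟨j', k', not_lt.1 fun h' => hjk.2 h' h, hjk', hy1⟩
      exact hx3 y h1

end

end Pool.Agent.V11248.Sq
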