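import Pool.Agent.V11248.Sq.OS
import Pool.Agent.V11248.Sq.Game

/-!
# The generic square sequence
-/

namespace Pool.Agent.V11248.OS

open Cardinal Set Pool.Agent.Helper669.Forcing Pool.Agent.V11248.Sq

universe u

section

variable {lam : Cardinal.{u}} {K L N Q : Type u} [LinearOrder K] [LinearOrder L] [Preorder Q]

/-- The name of the generic square sequence. -/
def CN (a b : K) : Set (Cond K L N × Q) := {p | a ≤ p.1.top ∧ b ∈ p.1.C a}

theorem meets_CN {a b : K} {p : Cond K L N × Q} (ha : a ≤ p.1.top) :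
    p ∈ meets (CN a b) ↔ b ∈ p.1.C a := by
  constructor
  · intro h
    obtain ⟨r, hr, s, hs, hrs⟩ := h p le_rfl
    rw [← (hr.1.2 a ha).1, (hrs.1.2 a hs.1).1]
    exact hs.2
  · intro h
    exact meets_of_mem ⟨ha, h⟩

variable [WellFoundedLT K] [WellFoundedLT L]

theorem exists_top (S : Setup lam K L) (p : Cond K L N × Q) (a : K) :
    ∃ q ≤ p, a ≤ q.1.top := by
  obtain ⟨s, hs, h, _⟩ := exists_ext S p.1 (le_max_left p.1.top a) p.1.nu
  exact ⟨(s, p.2), ⟨hs, le_rfl⟩, by rw [h]; exact le_max_right _ _⟩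

omit [WellFoundedLT K] [WellFoundedLT L] in
theorem acc_CN {a b : K} {p : Cond K L N × Q} (ha : a ≤ p.1.top) (h : p ∈ Acc (CN a) b) :
    ∀ c < b, ∃ d ∈ p.1.C a, c < d ∧ d < b := by
  intro c hc
  obtain ⟨r, hr, d, h1, h2⟩ := mem_fex.1 (h c hc) p le_rfl
  rw [meets_CN (ha.trans hr.1.1), (hr.1.2 a ha).1] at h2
  exact ⟨d, h2, h1⟩

/-- The generic sequence is a square sequence. -/
theorem squareSeq_CN (S : Setup lam K L) (p : Cond K L N × Q) :
    p ∈ SquareSeq L (CN (K := K) (L := L) (N := N) (Q := Q)) := by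
  intro a ha
  have hreg : Reg (P := Cond K L N × Q) (fand (fall fun b : K => fimp (meets (CN a b)) (fground (b < a)))
    (fand (fall fun b : K => fall fun _ : b < a =>
        fex fun c : K => fand (fground (b < c)) (meets (CN a c)))
    (fand (fall fun b : K => fall fun _ : IsLim b => fall fun _ : b < a =>
        fimp (Acc (CN a) b) (meets (CN a b)))
    (fand (OtpLe L (CN a))
      (fall fun b : K => fimp (fand (meets (CN a b)) (Acc (CN a) b))
        (fall fun c : K => fand (fimp (meets (CN b c)) (fand (meets (CN a c)) (fground (c < b))))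
          (fimp (fand (meets (CN a c)) (fground (c < b))) (meets (CN b c))))))))) := by
    refine reg_fand (reg_fall fun b => reg_fimp (down_meets _)) (reg_fand (reg_fall fun _ =>
      reg_fall fun _ => reg_fex _) (reg_fand (reg_fall fun _ => reg_fall fun _ => reg_fall fun _ =>
        reg_fimp (down_Acc _ _)) (reg_fand (reg_fex _) (reg_fall fun _ => reg_fimp
          (down_fand (down_meets _) (down_Acc _ _))))))
  refine hreg p fun q _ => ?_
  obtain ⟨r, hrq, har⟩ := exists_top S q a
  refine ⟨r, hrq, ?_⟩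
  have hs := r.1.sq.1 a har ha
  refine ⟨?_, ?_, ?_, ?_, ?_⟩
  · intro b
    refine fimp_of fun q hq h => ?_
    rw [meets_CN (har.trans hq.1.1), (hq.1.2 a har).1] at h
    exact hs.sub b h
  · intro b hb
    obtain ⟨c, hc, hbc⟩ := hs.unb b hb
    exact mem_fex_of_mem c (down_fand (down_fground _) (down_meets _))
      ⟨hbc, (meets_CN har).2 hc⟩
  · intro b hbl hb
    refine fimp_of fun q hq h => ?_
    have haq := har.trans hq.1.1
    have h1 := acc_CN haq h
    rw [meets_CN haq, (hq.1.2 a har).1]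
    rw [(hq.1.2 a har).1] at h1
    exact hs.cl b hb hbl h1
  · obtain ⟨g, hg⟩ := hs.otp
    refine mem_fex_of_mem (fun b i => fground (b ∈ r.1.C a ∧ i = g b)) ?_ ⟨?_, ?_⟩
    · exact down_fand (down_fall fun _ => down_fimp _ _) (down_fall fun _ => down_fall fun _ =>
        down_fall fun _ => down_fall fun _ => down_fall fun _ => down_fimp _ _)
    · intro b
      refine fimp_of fun q hq h => ?_
      rw [meets_CN (har.trans hq.1.1), (hq.1.2 a har).1] at h
      exact mem_fex_of_mem (g b) (down_meets _) (meets_of_mem ⟨h, rfl⟩)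
    · intro b b' i i' hbb'
      refine fimp_of fun q _ h => ?_
      obtain ⟨_, _, _, h1, _⟩ := h.1 q le_rfl
      obtain ⟨_, _, _, h2, _⟩ := h.2 q le_rfl
      obtain ⟨h1, rfl⟩ := h1
      obtain ⟨h2, rfl⟩ := h2
      exact hg h1 h2 hbb'
  · intro b
    refine fimp_of fun q hq h => ?_
    have haq := har.trans hq.1.1
    obtain ⟨h1, h2⟩ := h
    rw [meets_CN haq] at h1
    have h2 := acc_CN haq h2
    have hs' := q.1.sq.1 a haq ha
    have hba : b < a := hs'.sub b h1
    have hC : q.1.C b = q.1.C a ∩ Iio b := by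
      by_cases hb : IsLim b
      · exact hs'.coh b h1 hb h2
      · rw [q.1.sq.2 b hb]
        by_contra hcon
        obtain ⟨c, hc1, hc2⟩ : (q.1.C a ∩ Iio b).Nonempty :=
          Set.nonempty_iff_ne_empty.2 fun h => hcon h.symm
        refine hb ⟨⟨c, hc2⟩, fun x hx => ?_⟩
        obtain ⟨d, _, hd⟩ := h2 x hx
        exact ⟨d, hd⟩
    intro c
    constructor
    · refine fimp_of fun r' hr' h => ?_
      have har' := haq.trans hr'.1.1
      rw [meets_CN (hba.le.trans har'), (hr'.1.2 b (hba.le.trans haq)).1, hC] at h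
      refine ⟨?_, h.2⟩
      rw [meets_CN har', (hr'.1.2 a haq).1]
      exact h.1
    · refine fimp_of fun r' hr' h => ?_
      have har' := haq.trans hr'.1.1
      rw [meets_CN (hba.le.trans har'), (hr'.1.2 b (hba.le.trans haq)).1, hC]
      obtain ⟨h3, h4⟩ := h
      rw [meets_CN har', (hr'.1.2 a haq).1] at h3
      exact ⟨h3, h4⟩

end

end Pool.Agent.V11248.OS
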