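import Pool.Agent.V11248.Sq.Game2
import Pool.Agent.V11248.Sq.Ground

/-!
# Square sequences whose successor points are named in a second forcing notion
-/

namespace Pool.Agent.V11248.OS

open Cardinal Set Pool.Agent.Helper669.Forcing Pool.Agent.V11248.Sq

universe u

/-- Names, for the forcing notion `Q`, of an element of `K`. -/
structure QName (K Q : Type u) [Preorder Q] where
  F : K → Set Q
  total : ∀ q, ∃ q' ≤ q, ∃ v, q' ∈ F v
  uniq : ∀ q v v', q ∈ F v → q ∈ F v' → v = v'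
  down : ∀ v, ∀ q ∈ F v, ∀ q' ≤ q, q' ∈ F v

section

variable {lam : Cardinal.{u}} {K L Q : Type u} [LinearOrder K] [LinearOrder L] [Preorder Q]

open Classical in
/-- The point given by the value `v` and the member `γ` of `C`: it is `v` if `v` lies below `γ`
and above the smaller members of `C`, and `γ` otherwise. -/
noncomputable def ptv (C : Set K) (γ v : K) : K :=
  if (∀ x ∈ C, x < γ → x < v) ∧ v < γ then v else γ

theorem ptv_le (C : Set K) (γ v : K) : ptv C γ v ≤ γ := by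
  unfold ptv
  split_ifs with h
  · exact h.2.le
  · exact le_rfl

theorem lt_ptv {C : Set K} {γ v x : K} (hx : x ∈ C) (h : x < γ) : x < ptv C γ v := by
  unfold ptv
  split_ifs with h'
  · exact h'.1 x hx h
  · exact h

theorem ptv_of {C : Set K} {γ v : K} (h : ∀ x ∈ C, x < γ → x < v) (h' : v < γ) :
    ptv C γ v = v := by
  unfold ptv
  rw [if_pos ⟨h, h'⟩]

theorem ptv_acc {C : Set K} {γ v : K} (h : ∀ c < γ, ∃ d ∈ C, c < d ∧ d < γ) :
    ptv C γ v = γ := by
  unfold ptv
  rw [if_neg]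
  rintro ⟨h1, h2⟩
  obtain ⟨d, hd, h3, h4⟩ := h v h2
  exact absurd (h1 d hd h4) (not_lt.2 h3.le)

theorem ptv_congr {C C' : Set K} {γ v : K} (h : ∀ x < γ, x ∈ C ↔ x ∈ C') :
    ptv C γ v = ptv C' γ v := by
  have h0 : (∀ x ∈ C, x < γ → x < v) ↔ (∀ x ∈ C', x < γ → x < v) :=
    ⟨fun h1 x hx hx' => h1 x ((h x hx').2 hx) hx', fun h1 x hx hx' => h1 x ((h x hx').1 hx) hx'⟩
  unfold ptv
  by_cases h1 : (∀ x ∈ C, x < γ → x < v) ∧ v < γ
  · rw [if_pos h1, if_pos ⟨h0.1 h1.1, h1.2⟩]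
  · rw [if_neg h1, if_neg fun h2 => h1 ⟨h0.2 h2.1, h2.2⟩]

/-- The condition `p` decides that the point of the new sequence given by the member `γ` of the
old one is `b`. -/
def Dec (p : Cond K L (QName K Q) × Q) (a γ b : K) : Prop :=
  γ ∈ p.1.C a ∧ ∃ v, p.2 ∈ (p.1.nu γ).F v ∧ b = ptv (p.1.C a) γ v

/-- The name of the new sequence. -/
def DN (a b : K) : Set (Cond K L (QName K Q) × Q) := {p | a ≤ p.1.top ∧ ∃ γ, Dec p a γ b}

theorem lt_of_mem {s : Cond K L (QName K Q)} {a γ : K} (ha : a ≤ s.top) (h : γ ∈ s.C a) :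
    γ < a := by
  by_cases hl : IsLim a
  · exact (s.sq.1 a ha hl).sub γ h
  · rw [s.sq.2 a hl] at h
    exact absurd h (Set.notMem_empty _)

theorem Dec.mono {p q : Cond K L (QName K Q) × Q} {a γ b : K} (ha : a ≤ p.1.top)
    (h : Dec p a γ b) (hq : q ≤ p) : Dec q a γ b := by
  obtain ⟨h1, v, h2, h3⟩ := h
  have hC := (hq.1.2 a ha).1
  have hnu := (hq.1.2 γ ((lt_of_mem ha h1).le.trans ha)).2
  refine ⟨by rw [hC]; exact h1, v, ?_, by rw [hC]; exact h3⟩
  rw [hnu]
  exact (p.1.nu γ).down v _ h2 _ hq.2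

theorem Dec.unique {p : Cond K L (QName K Q) × Q} {a γ b b' : K} (h : Dec p a γ b)
    (h' : Dec p a γ b') : b = b' := by
  obtain ⟨_, v, h2, h3⟩ := h
  obtain ⟨_, v', h2', h3'⟩ := h'
  rw [h3, h3', (p.1.nu γ).uniq _ _ _ h2 h2']

theorem Dec.le {p : Cond K L (QName K Q) × Q} {a γ b : K} (h : Dec p a γ b) : b ≤ γ := by
  obtain ⟨_, v, _, h3⟩ := h
  rw [h3]
  exact ptv_le _ _ _

theorem Dec.lt {p : Cond K L (QName K Q) × Q} {a γ b x : K} (h : Dec p a γ b)
    (hx : x ∈ p.1.C a) (hxγ : x < γ) : x < b := by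
  obtain ⟨_, v, _, h3⟩ := h
  rw [h3]
  exact lt_ptv hx hxγ

theorem Dec.strict {p : Cond K L (QName K Q) × Q} {a γ b γ' b' : K} (h : Dec p a γ b)
    (h' : Dec p a γ' b') (hγ : γ < γ') : b < b' :=
  lt_of_le_of_lt h.le (h'.lt h.1 hγ)

theorem exists_dec {p : Cond K L (QName K Q) × Q} {a γ : K} (ha : a ≤ p.1.top)
    (h : γ ∈ p.1.C a) : ∃ q ≤ p, q.1 = p.1 ∧ ∃ b, Dec q a γ b := by
  obtain ⟨q', hq', v, hv⟩ := (p.1.nu γ).total p.2
  exact ⟨(p.1, q'), ⟨le_rfl, hq'⟩, rfl, ptv (p.1.C a) γ v, h, v, hv, rfl⟩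

theorem meets_DN {a b : K} {p : Cond K L (QName K Q) × Q} (ha : a ≤ p.1.top) :
    p ∈ meets (DN a b) ↔ ∀ q ≤ p, ∃ r ≤ q, ∃ γ, Dec r a γ b := by
  constructor
  · intro h q hq
    obtain ⟨r, hr, s, hs, hrs⟩ := h q hq
    obtain ⟨h1, γ, h2⟩ := hs
    exact ⟨r, hr, γ, h2.mono h1 hrs⟩
  · intro h q hq
    obtain ⟨r, hr, γ, h1⟩ := h q hq
    exact ⟨r, hr, r, ⟨ha.trans (hr.trans hq).1.1, γ, h1⟩, le_rfl⟩

theorem meets_DN_of_dec {a b γ : K} {p : Cond K L (QName K Q) × Q} (ha : a ≤ p.1.top)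
    (h : Dec p a γ b) : p ∈ meets (DN a b) :=
  (meets_DN ha).2 fun q hq => ⟨q, le_rfl, γ, h.mono ha hq⟩

/-- the limit points of the new sequence are those of the old one -/
theorem acc_DN {a b : K} {p : Cond K L (QName K Q) × Q} (ha : a ≤ p.1.top)
    (h : p ∈ Acc (DN a) b) : ∀ c < b, ∃ γ ∈ p.1.C a, c < γ ∧ γ < b := by
  intro c hc
  obtain ⟨r, hr, d, ⟨h1, h2⟩, h3⟩ := mem_fex.1 (h c hc) p le_rfl
  have har := ha.trans hr.1.1
  obtain ⟨r1, hr1, γ, h4⟩ := (meets_DN har).1 h3 r le_rfl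
  have har1 := har.trans hr1.1.1
  have hC1 : r1.1.C a = p.1.C a := ((hr1.trans hr).1.2 a ha).1
  by_cases hγ : γ < b
  · exact ⟨γ, by rw [← hC1]; exact h4.1, h1.trans_le h4.le, hγ⟩
  · push Not at hγ
    exfalso
    obtain ⟨r2, hr2, d', ⟨h5, h6⟩, h7⟩ := mem_fex.1 (h d h2) r1 (hr1.trans hr)
    have har2 := har1.trans hr2.1.1
    obtain ⟨r3, hr3, γ', h8⟩ := (meets_DN har2).1 h7 r2 le_rfl
    have h9 : Dec r3 a γ d := h4.mono har1 (hr3.trans hr2)
    rcases lt_trichotomy γ' γ with h10 | h10 | h10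
    · have := h9.lt h8.1 h10
      exact absurd (this.trans h5) (not_lt.2 h8.le)
    · subst h10
      exact absurd (h9.unique h8) h5.ne
    · have := h8.lt h9.1 h10
      exact absurd (this.trans h6) (not_lt.2 hγ)

variable [WellFoundedLT K] [WellFoundedLT L]

/-- The new sequence is a square sequence. -/
theorem squareSeq_DN (S : Setup lam K L) (p : Cond K L (QName K Q) × Q) :
    p ∈ SquareSeq L (DN (K := K) (L := L) (Q := Q)) := by
  intro a ha
  have hreg : Reg (P := Cond K L (QName K Q) × Q)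
    (fand (fall fun b : K => fimp (meets (DN a b)) (fground (b < a)))
    (fand (fall fun b : K => fall fun _ : b < a =>
        fex fun c : K => fand (fground (b < c)) (meets (DN a c)))
    (fand (fall fun b : K => fall fun _ : IsLim b => fall fun _ : b < a =>
        fimp (Acc (DN a) b) (meets (DN a b)))
    (fand (OtpLe L (DN a))
      (fall fun b : K => fimp (fand (meets (DN a b)) (Acc (DN a) b))
        (fall fun c : K => fand (fimp (meets (DN b c)) (fand (meets (DN a c)) (fground (c < b))))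
          (fimp (fand (meets (DN a c)) (fground (c < b))) (meets (DN b c))))))))) := by
    refine reg_fand (reg_fall fun b => reg_fimp (down_meets _)) (reg_fand (reg_fall fun _ =>
      reg_fall fun _ => reg_fex _) (reg_fand (reg_fall fun _ => reg_fall fun _ => reg_fall fun _ =>
        reg_fimp (down_Acc _ _)) (reg_fand (reg_fex _) (reg_fall fun _ => reg_fimp
          (down_fand (down_meets _) (down_Acc _ _))))))
  refine hreg p fun q _ => ?_
  obtain ⟨r, hrq, har⟩ := exists_top S q a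
  refine ⟨r, hrq, ?_⟩
  have hs := r.1.sq.1 a har ha
  refine ⟨?_, ?_, ?_, ?_, ?_⟩
  · intro b
    refine fimp_of fun q hq h => ?_
    have haq := har.trans hq.1.1
    obtain ⟨r1, hr1, γ, h1⟩ := (meets_DN haq).1 h q le_rfl
    exact lt_of_le_of_lt h1.le (lt_of_mem (haq.trans hr1.1.1) h1.1)
  · intro b hb
    obtain ⟨γ0, hγ0, h0⟩ := hs.unb b hb
    obtain ⟨γ1, hγ1, h1⟩ := hs.unb γ0 (hs.sub γ0 hγ0)
    refine mem_fex.2 fun q hq => ?_
    have haq := har.trans hq.1.1
    have hCq := (hq.1.2 a har).1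
    obtain ⟨r1, hr1, _, c, hc⟩ := exists_dec (p := q) (γ := γ1) haq (by rw [hCq]; exact hγ1)
    refine ⟨r1, hr1, c, h0.trans (hc.lt ?_ h1), meets_DN_of_dec (haq.trans hr1.1.1) hc⟩
    rw [((hr1.trans hq).1.2 a har).1]
    exact hγ0
  · intro b hbl hb
    refine fimp_of fun q hq h => ?_
    have haq := har.trans hq.1.1
    have h1 := acc_DN haq h
    have hsq := q.1.sq.1 a haq ha
    have hbC : b ∈ q.1.C a := hsq.cl b hb hbl h1
    refine (meets_DN haq).2 fun q' hq' => ?_
    have haq' := haq.trans hq'.1.1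
    have hCq' := (hq'.1.2 a haq).1
    obtain ⟨r1, hr1, hr1', x, hx⟩ := exists_dec (p := q') (γ := b) haq' (by rw [hCq']; exact hbC)
    refine ⟨r1, hr1, b, ?_⟩
    have hxb : x = b := by
      obtain ⟨_, v, _, h3⟩ := hx
      rw [h3, hr1', hCq']
      exact ptv_acc h1
    rw [hxb] at hx
    exact hx
  · obtain ⟨g, hg⟩ := hs.otp
    refine mem_fex_of_mem (fun b i => {p | p ≤ r ∧ ∃ γ, Dec p a γ b ∧ i = g γ}) ?_ ⟨?_, ?_⟩
    · exact down_fand (down_fall fun _ => down_fimp _ _) (down_fall fun _ => down_fall fun _ =>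
        down_fall fun _ => down_fall fun _ => down_fall fun _ => down_fimp _ _)
    · intro b
      refine fimp_of fun q hq h => ?_
      have haq := har.trans hq.1.1
      rw [meets_DN haq] at h
      refine mem_fex.2 fun q' hq' => ?_
      obtain ⟨r1, hr1, γ, hγ⟩ := h q' hq'
      exact ⟨r1, hr1, g γ, meets_of_mem ⟨(hr1.trans hq').trans hq, γ, hγ, rfl⟩⟩
    · intro b b' i i' hbb'
      refine fimp_of fun q hq h => ?_
      have haq := har.trans hq.1.1
      obtain ⟨r1, hr1, s1, ⟨hs1, γ, hγ, hi⟩, hrs1⟩ := h.1 q le_rfl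
      obtain ⟨r2, hr2, s2, ⟨hs2, γ', hγ', hi'⟩, hrs2⟩ := h.2 r1 hr1
      have h1 : Dec r2 a γ b := hγ.mono (har.trans hs1.1.1) (hr2.trans hrs1)
      have h2 : Dec r2 a γ' b' := hγ'.mono (har.trans hs2.1.1) hrs2
      have hC : r2.1.C a = r.1.C a := (((hr2.trans hr1).trans hq).1.2 a har).1
      rcases lt_trichotomy γ γ' with h3 | h3 | h3
      · change i < i'
        rw [hi, hi']
        exact hg (by rw [← hC]; exact h1.1) (by rw [← hC]; exact h2.1) h3
      · subst h3
        exact absurd (h1.unique h2) hbb'.ne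
      · exact absurd (h2.strict h1 h3) (not_lt.2 hbb'.le)
  · intro b
    refine fimp_of fun q hq h => ?_
    have haq := har.trans hq.1.1
    obtain ⟨h1, h2⟩ := h
    have h2 := acc_DN haq h2
    have hsq := q.1.sq.1 a haq ha
    have hba : b < a := by
      obtain ⟨r1, hr1, γ, h3⟩ := (meets_DN haq).1 h1 q le_rfl
      exact lt_of_le_of_lt h3.le (lt_of_mem (haq.trans hr1.1.1) h3.1)
    by_cases hbl : IsLim b
    · have hbC : b ∈ q.1.C a := hsq.cl b hba hbl h2
      have hC : q.1.C b = q.1.C a ∩ Iio b := hsq.coh b hbC hbl h2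
      have key : ∀ r' ≤ q, ∀ γ c, Dec r' b γ c ↔ (Dec r' a γ c ∧ γ < b) := by
        intro r' hr' γ c
        have e1 := (hr'.1.2 a haq).1
        have e2 := (hr'.1.2 b (hba.le.trans haq)).1
        have e3 : r'.1.C b = r'.1.C a ∩ Iio b := by rw [e2, hC, e1]
        constructor
        · rintro ⟨h3, v, h4, h5⟩
          rw [e3] at h3 h5
          refine ⟨⟨h3.1, v, h4, h5.trans (ptv_congr fun x hx => ?_)⟩, h3.2⟩
          exact ⟨fun h => h.1, fun h => ⟨h, hx.trans h3.2⟩⟩
        · rintro ⟨⟨h3, v, h4, h5⟩, h6⟩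
          refine ⟨by rw [e3]; exact ⟨h3, h6⟩, v, h4, h5.trans ?_⟩
          rw [e3]
          exact ptv_congr fun x hx => ⟨fun h => ⟨h, hx.trans h6⟩, fun h => h.1⟩
      intro c
      constructor
      · refine fimp_of fun r' hr' h => ?_
        have har' := haq.trans hr'.1.1
        rw [meets_DN (hba.le.trans har')] at h
        refine ⟨(meets_DN har').2 fun q' hq' => ?_, ?_⟩
        · obtain ⟨r1, hr1, γ, hγ⟩ := h q' hq'
          exact ⟨r1, hr1, γ, ((key r1 ((hr1.trans hq').trans hr') γ c).1 hγ).1⟩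
        · obtain ⟨r1, hr1, γ, hγ⟩ := h r' le_rfl
          have := (key r1 (hr1.trans hr') γ c).1 hγ
          exact lt_of_le_of_lt this.1.le this.2
      · refine fimp_of fun r' hr' h => ?_
        have har' := haq.trans hr'.1.1
        obtain ⟨h3, h4⟩ := h
        rw [meets_DN har'] at h3
        refine (meets_DN (hba.le.trans har')).2 fun q' hq' => ?_
        obtain ⟨r1, hr1, γ, hγ⟩ := h3 q' hq'
        have hr1q : r1 ≤ q := (hr1.trans hq').trans hr'
        have e1 := (hr1q.1.2 a haq).1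
        refine ⟨r1, hr1, γ, (key r1 hr1q γ c).2 ⟨hγ, ?_⟩⟩
        by_contra h5
        push Not at h5
        rcases h5.eq_or_lt with h6 | h6
        · subst h6
          obtain ⟨_, v, _, h7⟩ := hγ
          rw [e1, ptv_acc h2] at h7
          exact absurd h4 (by rw [h7]; exact lt_irrefl _)
        · have := hγ.lt (by rw [e1]; exact hbC) h6
          exact absurd this (not_lt.2 (show c < b from h4).le)
    · have hbm : ∀ c, ¬ c < b := by
        intro c hc
        apply hbl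
        refine ⟨⟨c, hc⟩, fun x hx => ?_⟩
        obtain ⟨d, _, hd⟩ := h2 x hx
        exact ⟨d, hd⟩
      intro c
      constructor
      · refine fimp_of fun r' hr' h => ?_
        have har' := haq.trans hr'.1.1
        rw [meets_DN (hba.le.trans har')] at h
        obtain ⟨r1, hr1, γ, hγ⟩ := h r' le_rfl
        have := hγ.1
        rw [r1.1.sq.2 b hbl] at this
        exact absurd this (Set.notMem_empty _)
      · refine fimp_of fun r' hr' h => ?_
        exact absurd h.2 (hbm c)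

end

end Pool.Agent.V11248.OS
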