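import Pool.Agent.V11248.Sq.Names

/-!
# The product of the square forcing with names and a forcing notion with small antichains
-/

namespace Pool.Agent.V11248.OS

open Cardinal Set Pool.Agent.Helper669.Forcing Pool.Agent.V11248.Sq

universe u

section

variable {lam : Cardinal.{u}} {K L Q : Type u} [LinearOrder K] [LinearOrder L] [Preorder Q]

/-- `Q` has only antichains of size less than `λ`. -/
def CC (L Q : Type u) [Preorder Q] : Prop := ∀ q : L → Q, ¬ ∀ i j, i ≠ j → Inc (q i) (q j)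

variable [WellFoundedLT K] [WellFoundedLT L]

/-- Mixing, below a given condition. -/
theorem exists_mix' (S : Setup lam K L) (hcc : CC L Q) {N V : Type u} (v0 : V)
    (p0 : Cond K L N × Q) (Φ : V → Set (Cond K L N × Q)) (hdown : ∀ v, Down (Φ v))
    (hdense : ∀ p ≤ p0, ∃ p' ≤ p, ∃ v, p' ∈ Φ v) :
    ∃ s ≤ p0.1, ∃ W : Set (Q × V), #W < lam ∧
      (∀ x ∈ W, ∀ q ≤ x.1, q ≤ p0.2 → (s, q) ∈ Φ x.2) ∧
      (∀ x ∈ W, ∀ y ∈ W, x ≠ y → Inc x.1 y.1) ∧ ∀ q, ∃ x ∈ W, ¬ Inc q x.1 := by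
  obtain ⟨s, hs, W, h1, h2, h3, h4⟩ := exists_mix S (V := V) hcc
    (fun s q v => (q ≤ p0.2 ∧ (s, q) ∈ Φ v) ∨ Inc q p0.2)
    (by
      intro s q v h s' hs' q' hq'
      rcases h with h | h
      · exact Or.inl ⟨hq'.trans h.1, hdown v _ h.2 _ ⟨hs', hq'⟩⟩
      · exact Or.inr fun r hr => h r (hr.trans hq')) p0.1 (by
      intro s hs q
      by_cases hq : Inc q p0.2
      · exact ⟨s, le_rfl, q, le_rfl, v0, Or.inr hq⟩
      · unfold Inc at hq
        push Not at hq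
        obtain ⟨r, hr1, hr2⟩ := hq
        obtain ⟨p', hp', v, hv⟩ := hdense (s, r) ⟨hs, hr2⟩
        exact ⟨p'.1, hp'.1, p'.2, hp'.2.trans hr1, v, Or.inl ⟨hp'.2.trans hr2, hv⟩⟩)
  refine ⟨s, hs, W, h1, fun x hx q hqx hq => ?_, h3, h4⟩
  rcases h2 x hx with h | h
  · exact hdown _ _ h.2 _ ⟨le_rfl, hqx⟩
  · exact absurd hq (h q hqx)

/-- Approximation of `λ` many values. -/
theorem exists_approx (S : Setup lam K L) (hcc : CC L Q) {N V : Type u} (v0 : V)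
    (p0 : Cond K L N × Q) (Φ : L → V → Set (Cond K L N × Q)) (hdown : ∀ i v, Down (Φ i v))
    (hdense : ∀ i, ∀ p ≤ p0, ∃ p' ≤ p, ∃ v, p' ∈ Φ i v) :
    ∃ s ≤ p0.1, ∃ B : L → Set V, (∀ i, #(B i) < lam) ∧
      ∀ i, ∀ p ≤ (s, p0.2), ∃ p' ≤ p, ∃ v ∈ B i, p' ∈ Φ i v := by
  classical
  have := S.noMaxK
  have := S.noMaxL
  have := S.nonemptyL
  obtain ⟨t, c, hr⟩ := exists_run S (Q := PUnit.{1})
    (fun i _ r _ => ⟨PUnit.unit, fun _ _ => trivial⟩)
    (fun i _ p' _ => ∃ B : Set V, #B < lam ∧ ∀ p ≤ (p'.1, p0.2), ∃ p'' ≤ p, ∃ v ∈ B, p'' ∈ Φ i v)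
    (p0.1, PUnit.unit) (by
      intro i p hp
      obtain ⟨s, hs, W, h1, h2, _, h4⟩ := exists_mix' S hcc v0 (p.1, p0.2) (Φ i) (hdown i)
        (fun q hq => hdense i q (hq.trans ⟨hp.1, le_rfl⟩))
      obtain ⟨b, hb⟩ := exists_gt s.top
      obtain ⟨s', hs', hb', _⟩ := exists_ext S s hb.le s.nu
      refine ⟨(s', p.2), ⟨hs'.trans hs, le_rfl⟩, b, hs.1.trans_lt hb, hb'.ge,
        Prod.snd '' W, mk_image_le.trans_lt h1, ?_⟩
      intro q hq
      obtain ⟨x, hx, h5⟩ := h4 q.2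
      unfold Inc at h5
      push Not at h5
      obtain ⟨r, hr1, hr2⟩ := h5
      refine ⟨(q.1, r), ⟨le_rfl, hr1⟩, x.2, ⟨x, hx, rfl⟩, ?_⟩
      exact hdown i _ _ (h2 x hx r hr2 (hr1.trans hq.2)) _ ⟨hq.1.trans hs', le_rfl⟩)
  obtain ⟨s, hs⟩ := hr.exists_top S
  have h1 : ∀ i, ∃ B : Set V, #B < lam ∧ ∀ p ≤ (s, p0.2), ∃ p'' ≤ p, ∃ v ∈ B, p'' ∈ Φ i v := by
    intro i
    obtain ⟨j, hj⟩ := exists_covBy_of_wellFoundedLT (a := i) (not_isMax i)
    obtain ⟨B, hB, h⟩ := (hr.succ i j hj).2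
    exact ⟨B, hB, fun p hp => h p (hp.trans ⟨hs j, le_rfl⟩)⟩
  choose B hB1 hB2 using h1
  exact ⟨s, (hs (Classical.arbitrary L)).trans (hr.le0 _).1, B, hB1, hB2⟩

/-- Functions from sets of size less than `λ` to `L` are bounded. -/
theorem regular_L' (S : Setup lam K L) (hcc : CC L Q) {N X : Type u} (hX : #X < lam)
    (R : X → L → Set (Cond K L N × Q)) (p : Cond K L N × Q) :
    p ∈ fimp (IsFun R) (fex fun b : L => fall fun x => fall fun y =>
      fimp (meets (R x y)) (fground (y < b))) := by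
  classical
  refine mem_fimp.2 fun p0 _ hp0 => ?_
  have := S.nonemptyL
  rcases isEmpty_or_nonempty X with hE | hE
  · exact ⟨p0, le_rfl, mem_fex_of_mem (Classical.arbitrary L)
      (down_fall fun _ => down_fall fun _ => down_fimp _ _) fun x => hE.elim x⟩
  obtain ⟨e, he⟩ := exists_surj (α := L) (β := X) (by rw [S.cardL]; exact hX.le)
  obtain ⟨s, hs, B, hB1, hB2⟩ := exists_approx S hcc (Classical.arbitrary L) p0
    (fun i v => meets (R (e i) v)) (fun _ _ => down_meets _)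
    (fun i p hp => IsFun.total (down_IsFun R _ hp0 _ hp) (e i))
  choose g hg using he
  obtain ⟨b, hb⟩ := S.bddL (⋃ x, B (g x)) (by
    rw [card_iUnion_lt_iff_forall_of_isRegular S.reg hX]
    exact fun x => hB1 _)
  have hsp : ((s, p0.2) : Cond K L N × Q) ≤ p0 := ⟨hs, le_rfl⟩
  refine ⟨(s, p0.2), hsp, mem_fex_of_mem b
    (down_fall fun _ => down_fall fun _ => down_fimp _ _) ?_⟩
  intro x y
  refine fimp_of fun q hq h => ?_
  obtain ⟨q', hq', v, hv, h1⟩ := hB2 (g x) q hq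
  rw [hg x] at h1
  have : y = v := IsFun.unique (down_IsFun R _ hp0 _ ((hq'.trans hq).trans hsp))
    (down_meets _ _ h _ hq') h1
  rw [this]
  exact hb v (mem_iUnion.2 ⟨x, hv⟩)

/-- Functions from sets of size at most `λ` to `K` are bounded. -/
theorem regular_K' (S : Setup lam K L) (hcc : CC L Q) {N X : Type u} (hX : #X ≤ lam)
    (R : X → K → Set (Cond K L N × Q)) (p : Cond K L N × Q) :
    p ∈ fimp (IsFun R) (fex fun b : K => fall fun x => fall fun y =>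
      fimp (meets (R x y)) (fground (y < b))) := by
  classical
  refine mem_fimp.2 fun p0 _ hp0 => ?_
  have := S.nonemptyL
  rcases isEmpty_or_nonempty X with hE | hE
  · exact ⟨p0, le_rfl, mem_fex_of_mem p0.1.top
      (down_fall fun _ => down_fall fun _ => down_fimp _ _) fun x => hE.elim x⟩
  obtain ⟨e, he⟩ := exists_surj (α := L) (β := X) (by rw [S.cardL]; exact hX)
  obtain ⟨s, hs, B, hB1, hB2⟩ := exists_approx S hcc p0.1.top p0
    (fun i v => meets (R (e i) v)) (fun _ _ => down_meets _)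
    (fun i p hp => IsFun.total (down_IsFun R _ hp0 _ hp) (e i))
  choose g hg using he
  obtain ⟨b, hb⟩ := S.bddK (⋃ x, B (g x)) (by
    refine (mk_iUnion_le _).trans ?_
    exact (mul_le_mul' hX (ciSup_le' fun x => (hB1 _).le)).trans (mul_eq_self S.unc.le).le)
  have hsp : ((s, p0.2) : Cond K L N × Q) ≤ p0 := ⟨hs, le_rfl⟩
  refine ⟨(s, p0.2), hsp, mem_fex_of_mem b
    (down_fall fun _ => down_fall fun _ => down_fimp _ _) ?_⟩
  intro x y
  refine fimp_of fun q hq h => ?_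
  obtain ⟨q', hq', v, hv, h1⟩ := hB2 (g x) q hq
  rw [hg x] at h1
  have : y = v := IsFun.unique (down_IsFun R _ hp0 _ ((hq'.trans hq).trans hsp))
    (down_meets _ _ h _ hq') h1
  rw [this]
  exact hb v (mem_iUnion.2 ⟨x, hv⟩)

/-- The name given by a maximal antichain. -/
def nameOf {V : Type u} (W : Set (Q × V)) (f : V → K)
    (h1 : ∀ x ∈ W, ∀ y ∈ W, x ≠ y → Inc x.1 y.1) (h2 : ∀ q, ∃ x ∈ W, ¬ Inc q x.1) :
    QName K Q where
  F v := {q | ∃ x ∈ W, q ≤ x.1 ∧ f x.2 = v}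
  total := by
    intro q
    obtain ⟨x, hx, h⟩ := h2 q
    unfold Inc at h
    push Not at h
    obtain ⟨r, hr1, hr2⟩ := h
    exact ⟨r, hr1, f x.2, x, hx, hr2, rfl⟩
  uniq := by
    rintro q v v' ⟨x, hx, hqx, rfl⟩ ⟨y, hy, hqy, rfl⟩
    by_cases hxy : x = y
    · rw [hxy]
    · exact absurd hqy (h1 x hx y hy hxy q hqx)
  down := by
    rintro v q ⟨x, hx, hqx, h⟩ q' hq'
    exact ⟨x, hx, hq'.trans hqx, h⟩

/-- The new sequence guesses. -/
theorem guess_DN (S : Setup lam K L) (hcc : CC L Q) (p : Cond K L (QName K Q) × Q) :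
    p ∈ Guess L (DN (K := K) (L := L) (Q := Q)) := by
  classical
  intro A D θ hθ
  refine mem_fimp.2 fun p0 _ hp0 => ?_
  obtain ⟨hA, hD⟩ := hp0
  -- the run
  obtain ⟨t, c, hr⟩ := exists_run S (Q := PUnit.{1})
    (fun i _ r _ => ⟨PUnit.unit, fun _ _ => trivial⟩)
    (fun i p p' c => ∀ r ≤ p0.2, ∀ v, r ∈ (p'.1.nu c).F v → v < c ∧
      ∃ d, p.1.top < d ∧ d < v ∧ (p'.1, r) ∈ meets (D d) ∧ (p'.1, r) ∈ meets (A i v))
    (p0.1, PUnit.unit) (by
      intro i p hp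
      obtain ⟨s, hs, W, h1, h2, h3, h4⟩ := exists_mix' S hcc (V := K × K) (p.1.top, p.1.top)
        (p.1, p0.2) (fun v => {q | (p.1.top < v.1 ∧ v.1 < v.2) ∧ q ∈ meets (D v.1) ∧
          q ∈ meets (A i v.2)})
        (fun v q hq q' hq' => ⟨hq.1, down_meets _ _ hq.2.1 _ hq', down_meets _ _ hq.2.2 _ hq'⟩)
        (by
          intro q hq
          have hq0 : q ≤ p0 := hq.trans ⟨hp.1, le_rfl⟩
          obtain ⟨q1, hq1, d, h5, h6⟩ := mem_fex.1 (hD.1 p.1.top) q hq0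
          obtain ⟨q2, hq2, v, h7, h8⟩ := mem_fex.1 (hA i d) q1 (hq1.trans hq0)
          exact ⟨q2, hq2.trans hq1, (d, v), ⟨h5, h7⟩, down_meets _ _ h6 _ hq2, h8⟩)
      obtain ⟨b, hb⟩ := S.bddK (insert s.top ((fun x : Q × (K × K) => x.2.2) '' W)) (by
        refine mk_insert_le.trans (add_le_of_le S.unc.le (mk_image_le.trans h1.le)
          (one_lt_aleph0.trans S.unc).le))
      have hsb : s.top < b := hb _ (mem_insert _ _)
      obtain ⟨s', hs', hb', hnu⟩ := exists_ext S s hsb.le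
        (fun _ => nameOf W (fun v => v.2) h3 h4)
      refine ⟨(s', p.2), ⟨hs'.trans hs, le_rfl⟩, b, hs.1.trans_lt hsb, hb'.ge, ?_⟩
      intro r hr v hv
      change r ∈ (s'.nu b).F v at hv
      rw [hnu b hsb] at hv
      obtain ⟨x, hx, hrx, rfl⟩ := hv
      obtain ⟨h5, h6, h7⟩ := h2 x hx r hrx hr
      refine ⟨hb _ (mem_insert_of_mem _ ⟨x, hx, rfl⟩), x.2.1, h5.1, h5.2,
        down_meets _ _ h6 _ ⟨hs', le_rfl⟩, down_meets _ _ h7 _ ⟨hs', le_rfl⟩⟩)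
  obtain ⟨hl1, hl2, _, hl4⟩ := hr.lim θ hθ
  have hcm := hr.c_mono
  have ha : (t θ).1.top ≤ (t θ).1.top := le_rfl
  refine ⟨((t θ).1, p0.2), ⟨(hr.le0 θ).1, le_rfl⟩, mem_fex_of_mem (t θ).1.top ?_
    ⟨hl1, mem_fex_of_mem (fun i x => {p | p ≤ ((t θ).1, p0.2) ∧ i < θ ∧
      Dec p (t θ).1.top (c i) x}) ?_ ⟨⟨?_, ?_, ?_, ?_, ?_⟩, ?_⟩⟩⟩
  · exact down_fand (down_fground _) (down_fex _)
  · exact down_fand (down_Enum _ _ _) (down_fall fun _ => down_fall fun _ => down_fall fun _ =>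
      down_fall fun _ => down_fall fun _ => down_fall fun _ => down_fimp _ _)
  · intro i hi
    refine mem_fex.2 fun q hq => ?_
    have haq : (t θ).1.top ≤ q.1.top := hq.1.1
    have hcC : c i ∈ q.1.C (t θ).1.top := by
      rw [(hq.1.2 _ le_rfl).1]
      change c i ∈ (t θ).1.C (t θ).1.top
      rw [hl4]
      exact ⟨i, hi, rfl⟩
    obtain ⟨r, hr1, _, x, hx⟩ := exists_dec haq hcC
    exact ⟨r, hr1, x, meets_of_mem ⟨hr1.trans hq, hi, hx⟩⟩
  · intro i x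
    refine fimp_of fun q hq h => ?_
    have haq : (t θ).1.top ≤ q.1.top := hq.1.1
    constructor
    · obtain ⟨_, _, _, ⟨_, h1, _⟩, _⟩ := h q le_rfl
      exact h1
    · refine (meets_DN haq).2 fun q' hq' => ?_
      obtain ⟨r, hr1, s, ⟨hs1, _, hs2⟩, hrs⟩ := h q' hq'
      exact ⟨r, hr1, c i, hs2.mono hs1.1.1 hrs⟩
  · intro x
    refine fimp_of fun q hq h => ?_
    have haq : (t θ).1.top ≤ q.1.top := hq.1.1
    rw [meets_DN haq] at h
    refine mem_fex.2 fun q' hq' => ?_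
    obtain ⟨r, hr1, γ, hγ⟩ := h q' hq'
    have h1 := hγ.1
    rw [((hr1.trans (hq'.trans hq)).1.2 _ le_rfl).1] at h1
    change γ ∈ (t θ).1.C (t θ).1.top at h1
    rw [hl4] at h1
    obtain ⟨i, hi, rfl⟩ := h1
    exact ⟨r, hr1, i, meets_of_mem ⟨hr1.trans (hq'.trans hq), hi, hγ⟩⟩
  · intro i x y
    refine fimp_of fun q hq h => ?_
    obtain ⟨r1, hr1, s1, ⟨hs1, _, hd1⟩, hrs1⟩ := h.1 q le_rfl
    obtain ⟨r2, hr2, s2, ⟨hs2, _, hd2⟩, hrs2⟩ := h.2 r1 hr1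
    exact (hd1.mono hs1.1.1 (hr2.trans hrs1)).unique (hd2.mono hs2.1.1 hrs2)
  · intro i j x y hij
    refine fimp_of fun q hq h => ?_
    obtain ⟨r1, hr1, s1, ⟨hs1, _, hd1⟩, hrs1⟩ := h.1 q le_rfl
    obtain ⟨r2, hr2, s2, ⟨hs2, _, hd2⟩, hrs2⟩ := h.2 r1 hr1
    exact (hd1.mono hs1.1.1 (hr2.trans hrs1)).strict (hd2.mono hs2.1.1 hrs2) (hcm hij)
  · intro i j hi hij x y
    refine fimp_of fun q hq h => ?_
    have hreg : Reg (fand (meets (A i y))
        (fex fun b : K => fand (fground (x < b ∧ b < y)) (meets (D b)))) :=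
      reg_fand (reg_meets _) (reg_fex _)
    refine hreg q fun q' hq' => ?_
    obtain ⟨r1, hr1, s1, ⟨hs1, _, hd1⟩, hrs1⟩ := h.1 q' hq'
    obtain ⟨r2, hr2, s2, ⟨hs2, hj, hd2⟩, hrs2⟩ := h.2 r1 (hr1.trans hq')
    refine ⟨r2, hr2.trans hr1, ?_⟩
    have hx : Dec r2 (t θ).1.top (c i) x := hd1.mono hs1.1.1 (hr2.trans hrs1)
    have hy : Dec r2 (t θ).1.top (c j) y := hd2.mono hs2.1.1 hrs2
    have hr2θ : r2 ≤ ((t θ).1, p0.2) := hrs2.trans hs2
    have hjθ : (t θ).1 ≤ (t j).1 := (hr.anti j θ hj.le).1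
    obtain ⟨hyC, v, hv, hyv⟩ := hy
    have hnu : r2.1.nu (c j) = (t j).1.nu (c j) := ((hr2θ.1.trans hjθ).2 _ (hr.cle j)).2
    rw [hnu] at hv
    obtain ⟨h1, d, h2, h3, h4, h5⟩ := (hr.succ i j hij).2 r2.2 hr2θ.2 v hv
    have hyv' : y = v := by
      rw [hyv]
      refine ptv_of (fun z hz hzj => ?_) h1
      rw [(hr2θ.1.2 _ le_rfl).1] at hz
      change z ∈ (t θ).1.C (t θ).1.top at hz
      rw [hl4] at hz
      obtain ⟨k, hk, rfl⟩ := hz
      have hkj : k < j := hcm.lt_iff_lt.1 hzj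
      have hki : k ≤ i := not_lt.1 fun h' => hij.2 h' hkj
      exact (((hcm.monotone hki).trans (hr.cle i)).trans_lt h2).trans h3
    have hle : r2 ≤ ((t j).1, r2.2) := ⟨hr2θ.1.trans hjθ, le_rfl⟩
    rw [hyv']
    refine ⟨down_meets _ _ h5 _ hle, mem_fex_of_mem d (down_fand (down_fground _) (down_meets _))
      ⟨⟨?_, h3⟩, down_meets _ _ h4 _ hle⟩⟩
    exact (hx.le.trans (hr.cle i)).trans_lt h2

end

end Pool.Agent.V11248.OS
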